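import Mathlib
import Pool.Agent.H892.VS.Stm

/-!
# Apolarity of the ideals of points (helper16 for helper892)
-/

set_option autoImplicit false

open MvPolynomial

namespace Pool.Agent.H16.VS_APO

open Pool.Agent.H892.VS

theorem mem_mon {n s : ℕ} (T : Cox n s) (v : Fin s → ℤ) (m : Mon n) :
    m ∈ T.mon v ↔ T.wt m = v := by
  unfold Cox.mon
  rw [Set.Finite.mem_toFinset]
  exact Iff.rfl

/-- the value of the component of degree `v` at a point -/
theorem eval_cmp {n s : ℕ} (T : Cox n s) (v : Fin s → ℤ) (x : Fin n → ℂ)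
    (p : MvPolynomial (Fin n) ℂ) :
    eval x (T.cmp v p) = ∑ m ∈ p.support, p.coeff m * T.ev v x m := by
  classical
  unfold Cox.cmp
  rw [map_sum, Finset.sum_filter]
  refine Finset.sum_congr rfl fun m _ => ?_
  unfold Cox.ev
  by_cases h : T.wt m = v
  · rw [if_pos h, if_pos ((mem_mon T v m).2 h), eval_monomial,
      Finsupp.prod_fintype _ _ (fun j => pow_zero _)]
  · rw [if_neg h, if_neg (fun h' => h ((mem_mon T v m).1 h')), mul_zero]

theorem pair_eq {n s r : ℕ} (T : Cox n s) (v : Fin s → ℤ) (x : Fin r → Fin n → ℂ) (c : Fin r → ℂ)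
    (p : MvPolynomial (Fin n) ℂ) :
    pair (∑ i, c i • T.ev v (x i)) p = ∑ i, c i * eval (x i) (T.cmp v p) := by
  unfold pair
  have h1 : ∀ m ∈ p.support, p.coeff m * (∑ i, c i • T.ev v (x i)) m =
      ∑ i, c i * (p.coeff m * T.ev v (x i) m) := by
    intro m _
    rw [Finset.sum_apply, Finset.mul_sum]
    refine Finset.sum_congr rfl fun i _ => ?_
    rw [Pi.smul_apply, smul_eq_mul]
    ring
  rw [Finset.sum_congr rfl h1, Finset.sum_comm]
  refine Finset.sum_congr rfl fun i _ => ?_
  rw [← Finset.mul_sum, eval_cmp]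

theorem t_APO (h1 : S_PTI) : S_APO := by
  intro n s r T v x c g hg h
  have hp : h * g ∈ T.ptIdeal x := Ideal.mul_mem_left _ h hg
  rw [pair_eq]
  refine Finset.sum_eq_zero fun i _ => ?_
  rw [((h1 n s r T x).2.1 (h * g)).1 hp v i, mul_zero]

end Pool.Agent.H16.VS_APO
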