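import Mathlib
import Pool.Agent.H892.VS.Stm

/-!
# Change of charts
-/

set_option autoImplicit false

open MvPolynomial

namespace Pool.Agent.H813.VS_CHANGE

open Pool.Agent.H892.VS

variable {n s : ℕ} (T : Cox n s)

theorem co_red {D : Finset (Fin s → ℤ)} {A : Finset (Mon n)} {J : Ideal (MvPolynomial (Fin n) ℂ)}
    (hA : T.IsBase D A J) {m : Mon n} (hm : T.wt m ∈ D) :
    T.Red A J m (fun a => T.co D A J (m, a)) := by
  have h : T.wt m ∈ D ∧ ∃ c, T.Red A J m c := ⟨hm, (hA m hm).exists⟩
  have h1 : (fun a => T.co D A J (m, a)) = Classical.choose h.2 := by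
    funext a
    exact dif_pos h
  rw [h1]
  exact Classical.choose_spec h.2

theorem co_uniq {D : Finset (Fin s → ℤ)} {A : Finset (Mon n)}
    {J : Ideal (MvPolynomial (Fin n) ℂ)} (hA : T.IsBase D A J) {m : Mon n} (hm : T.wt m ∈ D)
    {c : Mon n → ℂ} (hc : T.Red A J m c) (a : Mon n) : T.co D A J (m, a) = c a :=
  congrFun ((hA m hm).unique (co_red T hA hm) hc) a

theorem co_out {D : Finset (Fin s → ℤ)} {A : Finset (Mon n)} {J : Ideal (MvPolynomial (Fin n) ℂ)}
    {m : Mon n} (hm : T.wt m ∉ D) (a : Mon n) : T.co D A J (m, a) = 0 :=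
  dif_neg fun h => hm h.1

/-- composition of reductions -/
theorem comp {A B : Finset (Mon n)} {J : Ideal (MvPolynomial (Fin n) ℂ)} {m : Mon n}
    {c : Mon n → ℂ} {d : Mon n → Mon n → ℂ} (hc : T.Red A J m c)
    (hd : ∀ a ∈ A, T.wt a = T.wt m → T.Red B J a (d a)) :
    T.Red B J m (fun b => ∑ a ∈ A, c a * d a b) := by
  have hca : ∀ a ∈ A, c a ≠ 0 → T.Red B J a (d a) := fun a ha h => hd a ha (hc.1 a h).2
  refine ⟨fun b hb => ?_, ?_⟩
  · obtain ⟨a, ha, hne⟩ := Finset.exists_ne_zero_of_sum_ne_zero hb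
    have h1 := left_ne_zero_of_mul hne
    have h2 := (hca a ha h1).1 b (right_ne_zero_of_mul hne)
    exact ⟨h2.1, h2.2.trans (hc.1 a h1).2⟩
  · have h1 : ∑ a ∈ A, C (c a) * (monomial a 1 - ∑ b ∈ B, monomial b (d a b)) ∈ J := by
      refine Ideal.sum_mem _ fun a ha => ?_
      by_cases h : c a = 0
      · rw [h, C_0, zero_mul]
        exact Ideal.zero_mem _
      · exact Ideal.mul_mem_left _ _ (hca a ha h).2
    have h2 := Ideal.add_mem _ hc.2 h1
    have h3 : monomial m 1 - ∑ a ∈ A, monomial a (c a) +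
        ∑ a ∈ A, C (c a) * (monomial a 1 - ∑ b ∈ B, monomial b (d a b)) =
        monomial m 1 - ∑ b ∈ B, monomial b (∑ a ∈ A, c a * d a b) := by
      have e1 : ∀ a, C (c a) * (monomial a 1 - ∑ b ∈ B, monomial b (d a b)) =
          monomial a (c a) - ∑ b ∈ B, monomial b (c a * d a b) := by
        intro a
        rw [mul_sub, C_mul_monomial, mul_one, Finset.mul_sum]
        congr 1
        refine Finset.sum_congr rfl fun b _ => ?_
        rw [C_mul_monomial]
      simp only [e1]
      rw [Finset.sum_sub_distrib, Finset.sum_comm]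
      have e2 : ∀ b, ∑ a ∈ A, monomial b (c a * d a b) =
          monomial b (∑ a ∈ A, c a * d a b) := fun b => (map_sum (monomial b) _ _).symm
      simp only [e2]
      ring
    rw [h3] at h2
    exact h2

open Classical in
theorem red_single {A : Finset (Mon n)} {J : Ideal (MvPolynomial (Fin n) ℂ)} {a : Mon n}
    (ha : a ∈ A) : T.Red A J a (Pi.single a 1) := by
  refine ⟨fun b hb => ?_, ?_⟩
  · have h : b = a := by
      by_contra h
      exact hb (Pi.single_eq_of_ne h _)
    rw [h]
    exact ⟨ha, rfl⟩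
  · have h1 : ∑ b ∈ A, monomial b ((Pi.single a 1 : Mon n → ℂ) b) = monomial a (1 : ℂ) := by
      rw [Finset.sum_eq_single_of_mem a ha]
      · rw [Pi.single_eq_same]
      · intro b _ hb
        rw [Pi.single_eq_of_ne hb, map_zero]
    rw [h1, sub_self]
    exact Ideal.zero_mem _

open Classical in
/-- the elements of `A` with weights in `D` -/
noncomputable def dom (D : Finset (Fin s → ℤ)) (A : Finset (Mon n)) : Finset (Mon n) :=
  A.filter fun a => T.wt a ∈ D

theorem mem_dom {D : Finset (Fin s → ℤ)} {A : Finset (Mon n)} {a : Mon n} :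
    a ∈ dom T D A ↔ a ∈ A ∧ T.wt a ∈ D := by
  unfold dom
  exact Finset.mem_filter

/-- sums over `A` of terms with weights in `D` -/
theorem sum_dom {D : Finset (Fin s → ℤ)} {A : Finset (Mon n)} (f : Mon n → ℂ)
    (h : ∀ a, f a ≠ 0 → T.wt a ∈ D) : ∑ a : dom T D A, f a = ∑ a ∈ A, f a := by
  classical
  rw [Finset.sum_coe_sort (dom T D A) f]
  unfold dom
  exact Finset.sum_filter_of_ne fun a _ ha => h a ha

/-- the matrix of the change of the basis -/
noncomputable def mt (D : Finset (Fin s → ℤ)) (J : Ideal (MvPolynomial (Fin n) ℂ))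
    (A B : Finset (Mon n)) : Matrix (dom T D A) (dom T D B) ℂ :=
  fun x y => T.co D B J (x.1, y.1)

open Classical in
theorem mt_mul {D : Finset (Fin s → ℤ)} {J : Ideal (MvPolynomial (Fin n) ℂ)}
    {A B : Finset (Mon n)} (hA : T.IsBase D A J) (hB : T.IsBase D B J) :
    mt T D J A B * mt T D J B A = 1 := by
  ext x z
  obtain ⟨hx, hxD⟩ := (mem_dom T).1 x.2
  rw [Matrix.mul_apply]
  have h1 : ∑ y : dom T D B, mt T D J A B x y * mt T D J B A y z =
      ∑ b ∈ B, T.co D B J (x.1, b) * T.co D A J (b, z.1) := by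
    refine sum_dom T (fun b => T.co D B J (x.1, b) * T.co D A J (b, z.1)) fun b hb => ?_
    by_contra h
    exact hb (by rw [co_out T h, mul_zero])
  rw [h1]
  have h2 := comp T (d := fun b a => T.co D A J (b, a)) (co_red T hB hxD)
    fun b _ hb2 => co_red T hA (hb2 ▸ hxD)
  have h3 : T.co D A J (x.1, z.1) = ∑ b ∈ B, T.co D B J (x.1, b) * T.co D A J (b, z.1) :=
    co_uniq T hA hxD h2 z.1
  have h4 : T.co D A J (x.1, z.1) = (Pi.single x.1 1 : Mon n → ℂ) z.1 :=
    co_uniq T hA hxD (red_single T hx) z.1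
  rw [← h3, h4, Matrix.one_apply, Pi.single_apply]
  by_cases h : x = z
  · rw [if_pos h, if_pos (by rw [h])]
  · rw [if_neg h, if_neg fun h' => h (Subtype.ext h'.symm)]

open Classical in
/-- a second basis from an invertible matrix -/
theorem base_of {D : Finset (Fin s → ℤ)} {J : Ideal (MvPolynomial (Fin n) ℂ)}
    {A B : Finset (Mon n)} (hA : T.IsBase D A J) (N : Matrix (dom T D A) (dom T D B) ℂ)
    (h1 : mt T D J B A * N = 1) (h2 : N * mt T D J B A = 1) : T.IsBase D B J := by
  -- the weight preserving left inverse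
  obtain ⟨N', hN'⟩ : ∃ N' : Mon n → Mon n → ℂ, N' = fun a b =>
      if h : (a ∈ dom T D A ∧ b ∈ dom T D B) ∧ T.wt b = T.wt a then N ⟨a, h.1.1⟩ ⟨b, h.1.2⟩ else 0 :=
    ⟨_, rfl⟩
  have hN'0 : ∀ a b, N' a b ≠ 0 → b ∈ B ∧ T.wt b ∈ D ∧ T.wt b = T.wt a := by
    intro a b h
    rw [hN'] at h
    simp only [] at h
    by_cases h3 : (a ∈ dom T D A ∧ b ∈ dom T D B) ∧ T.wt b = T.wt a
    · exact ⟨((mem_dom T).1 h3.1.2).1, ((mem_dom T).1 h3.1.2).2, h3.2⟩
    · rw [dif_neg h3] at h
      exact absurd rfl h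
  have hN'1 : ∀ a ∈ dom T D A, ∀ z ∈ dom T D A,
      ∑ b ∈ B, N' a b * T.co D A J (b, z) = if a = z then 1 else 0 := by
    intro a ha z hz
    have h3 : ∑ b ∈ B, N' a b * T.co D A J (b, z) =
        ∑ b : dom T D B, N' a b * T.co D A J (b, z) := by
      refine (sum_dom T (fun b => N' a b * T.co D A J (b, z)) fun b hb => ?_).symm
      exact (hN'0 a b (left_ne_zero_of_mul hb)).2.1
    have h4 : ∀ b : dom T D B, N' a b * T.co D A J (b, z) =
        if T.wt z = T.wt a then N ⟨a, ha⟩ b * mt T D J B A b ⟨z, hz⟩ else 0 := by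
      intro b
      show N' a b * T.co D A J (b, z) =
        if T.wt z = T.wt a then N ⟨a, ha⟩ b * T.co D A J (b.1, z) else 0
      by_cases h5 : T.co D A J (b.1, z) = 0
      · rw [h5, mul_zero, mul_zero, ite_self]
      · have h6 : T.wt z = T.wt b.1 :=
          ((co_red T hA ((mem_dom T).1 b.2).2).1 z h5).2
        rw [h6, hN']
        simp only []
        by_cases h7 : T.wt b.1 = T.wt a
        · rw [if_pos h7, dif_pos ⟨⟨ha, b.2⟩, h7⟩]
        · rw [if_neg h7, dif_neg fun h => h7 h.2, zero_mul]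
    rw [h3, Finset.sum_congr rfl fun b _ => h4 b]
    have h5 : ∑ b, N ⟨a, ha⟩ b * mt T D J B A b ⟨z, hz⟩ = if a = z then 1 else 0 := by
      rw [← Matrix.mul_apply, h2, Matrix.one_apply]
      by_cases h : a = z
      · rw [if_pos h, if_pos (Subtype.ext h)]
      · rw [if_neg h, if_neg fun h' => h (congrArg Subtype.val h')]
    by_cases h6 : T.wt z = T.wt a
    · simp only [if_pos h6]
      exact h5
    · simp only [if_neg h6, Finset.sum_const_zero]
      rw [if_neg fun h => h6 (by rw [h])]
  -- the elements of `A` in terms of `B`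
  have hred : ∀ a ∈ dom T D A, T.Red B J a (N' a) := by
    intro a ha
    obtain ⟨haA, haD⟩ := (mem_dom T).1 ha
    refine ⟨fun b hb => ⟨(hN'0 a b hb).1, (hN'0 a b hb).2.2⟩, ?_⟩
    have h3 : ∑ b ∈ B, C (N' a b) * (monomial b 1 -
        ∑ z ∈ A, monomial z (T.co D A J (b, z))) ∈ J := by
      refine Ideal.sum_mem _ fun b _ => ?_
      by_cases h : N' a b = 0
      · rw [h, C_0, zero_mul]
        exact Ideal.zero_mem _
      · exact Ideal.mul_mem_left _ _ (co_red T hA (hN'0 a b h).2.1).2
    have h4 : ∑ b ∈ B, C (N' a b) * (monomial b 1 -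
        ∑ z ∈ A, monomial z (T.co D A J (b, z))) =
        ∑ b ∈ B, monomial b (N' a b) -
          ∑ z ∈ A, monomial z (∑ b ∈ B, N' a b * T.co D A J (b, z)) := by
      have e1 : ∀ b, C (N' a b) * (monomial b 1 -
          ∑ z ∈ A, monomial z (T.co D A J (b, z))) =
          monomial b (N' a b) - ∑ z ∈ A, monomial z (N' a b * T.co D A J (b, z)) := by
        intro b
        rw [mul_sub, C_mul_monomial, mul_one, Finset.mul_sum]
        congr 1
        refine Finset.sum_congr rfl fun z _ => ?_
        rw [C_mul_monomial]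
      simp only [e1]
      rw [Finset.sum_sub_distrib]
      congr 1
      rw [Finset.sum_comm]
      exact Finset.sum_congr rfl fun z _ => (map_sum (monomial z) _ _).symm
    have h5 : ∑ z ∈ A, monomial z (∑ b ∈ B, N' a b * T.co D A J (b, z)) =
        monomial a (1 : ℂ) := by
      rw [Finset.sum_eq_single_of_mem a haA]
      · rw [hN'1 a ha a ha, if_pos rfl]
      · intro z hz hza
        by_cases h6 : T.wt z ∈ D
        · rw [hN'1 a ha z ((mem_dom T).2 ⟨hz, h6⟩), if_neg (Ne.symm hza), map_zero]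
        · have h7 : ∑ b ∈ B, N' a b * T.co D A J (b, z) = 0 := by
            refine Finset.sum_eq_zero fun b _ => ?_
            by_cases h8 : T.wt b ∈ D
            · have h9 : T.co D A J (b, z) = 0 := by
                by_contra h10
                exact h6 (((co_red T hA h8).1 z h10).2 ▸ h8)
              rw [h9, mul_zero]
            · rw [co_out T h8, mul_zero]
          rw [h7, map_zero]
    rw [h4, h5] at h3
    have h6 := Ideal.neg_mem_iff J |>.2 h3
    rwa [neg_sub] at h6
  intro m hm
  refine ⟨fun b => ∑ a ∈ A, T.co D A J (m, a) * N' a b, ?_, ?_⟩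
  · exact comp T (co_red T hA hm) fun a ha hwa => hred a ((mem_dom T).2 ⟨ha, hwa ▸ hm⟩)
  · have huniq : ∀ c c' : Mon n → ℂ, T.Red B J m c → T.Red B J m c' → c = c' := by
      intro c c' hc hc'
      have e : ∀ (c : Mon n → ℂ), T.Red B J m c → ∀ z : dom T D A,
          ∑ b : dom T D B, c b * mt T D J B A b z = T.co D A J (m, z.1) := by
        intro c hc z
        have h3 := comp T (d := fun b a => T.co D A J (b, a)) hc
          fun b _ hwb => co_red T hA (hwb ▸ hm)
        have h4 := co_uniq T hA hm h3 z.1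
        rw [h4]
        refine sum_dom T (fun b => c b * T.co D A J (b, z.1)) fun b hb => ?_
        rw [(hc.1 b (left_ne_zero_of_mul hb)).2]
        exact hm
      have e2 : ∀ (c : Mon n → ℂ), T.Red B J m c → ∀ b : dom T D B,
          c b = ∑ z : dom T D A, T.co D A J (m, z.1) * N z b := by
        intro c hc b
        have h3 : ∑ z : dom T D A, T.co D A J (m, z.1) * N z b =
            ∑ z : dom T D A, (∑ b' : dom T D B, c b' * mt T D J B A b' z) * N z b :=
          Finset.sum_congr rfl fun z _ => by rw [e c hc z]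
        rw [h3]
        simp only [Finset.sum_mul]
        rw [Finset.sum_comm]
        have h4 : ∀ b' : dom T D B, ∑ z : dom T D A, c b' * mt T D J B A b' z * N z b =
            c b' * (if b' = b then 1 else 0) := by
          intro b'
          simp only [mul_assoc]
          rw [← Finset.mul_sum, ← Matrix.mul_apply, h1, Matrix.one_apply]
        simp only [h4]
        rw [Finset.sum_eq_single_of_mem b (Finset.mem_univ b)]
        · rw [if_pos rfl, mul_one]
        · intro b' _ hb'
          rw [if_neg hb', mul_zero]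
      funext b
      by_cases hb : b ∈ dom T D B
      · rw [e2 c hc ⟨b, hb⟩, e2 c' hc' ⟨b, hb⟩]
      · have h0 : ∀ c : Mon n → ℂ, T.Red B J m c → c b = 0 := by
          intro c hc
          by_contra h
          have h3 := hc.1 b h
          exact hb ((mem_dom T).2 ⟨h3.1, h3.2 ▸ hm⟩)
        rw [h0 c hc, h0 c' hc']
    intro c hc
    exact huniq c _ hc
      (comp T (co_red T hA hm) fun a ha hwa => hred a ((mem_dom T).2 ⟨ha, hwa ▸ hm⟩))

open Classical in
/-- the square matrix of the change of the basis, with variables as entries -/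
noncomputable def MX {D : Finset (Fin s → ℤ)} {A B : Finset (Mon n)} (e : dom T D B ≃ dom T D A) :
    Matrix (dom T D B) (dom T D B) (MvPolynomial (Mon n × Mon n) ℂ) :=
  fun x y => X (x.1, (e y).1)

open Classical in
/-- the numerators -/
noncomputable def num {D : Finset (Fin s → ℤ)} {A B : Finset (Mon n)}
    (e : dom T D B ≃ dom T D A) (q : Mon n × Mon n) : MvPolynomial (Mon n × Mon n) ℂ :=
  if h : T.wt q.1 ∈ D ∧ q.2 ∈ dom T D B then
    ∑ a : dom T D A, X (q.1, a.1) * (MX T e).adjugate (e.symm a) ⟨q.2, h.2⟩ else 0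

open Classical in
theorem eval_MX {D : Finset (Fin s → ℤ)} {A B : Finset (Mon n)} (e : dom T D B ≃ dom T D A)
    (J : Ideal (MvPolynomial (Fin n) ℂ)) :
    (eval (T.co D A J)).mapMatrix (MX T e) = (mt T D J B A).submatrix id e := by
  ext x y
  rw [RingHom.mapMatrix_apply, Matrix.map_apply]
  exact eval_X _

open Classical in
theorem right_inv {D : Finset (Fin s → ℤ)} {J : Ideal (MvPolynomial (Fin n) ℂ)}
    {A B : Finset (Mon n)} (e : dom T D B ≃ dom T D A) (hA : T.IsBase D A J)
    (hB : T.IsBase D B J) :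
    (mt T D J B A).submatrix id e * (mt T D J A B).submatrix e id = 1 := by
  rw [Matrix.submatrix_mul_equiv, mt_mul T hB hA, Matrix.submatrix_id_id]

open Classical in
theorem det_ne {D : Finset (Fin s → ℤ)} {J : Ideal (MvPolynomial (Fin n) ℂ)}
    {A B : Finset (Mon n)} (e : dom T D B ≃ dom T D A) (hA : T.IsBase D A J) :
    T.IsBase D B J ↔ ((mt T D J B A).submatrix id e).det ≠ 0 := by
  constructor
  · intro hB h
    have h1 := congrArg Matrix.det (right_inv T e hA hB)
    rw [Matrix.det_mul, h, zero_mul, Matrix.det_one] at h1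
    exact zero_ne_one h1
  · intro h
    have hu : IsUnit ((mt T D J B A).submatrix id e).det := isUnit_iff_ne_zero.2 h
    obtain ⟨M, hM⟩ : ∃ M, M = (mt T D J B A).submatrix id e := ⟨_, rfl⟩
    rw [← hM] at hu
    have hM2 : mt T D J B A = M.submatrix id e.symm := by
      rw [hM, Matrix.submatrix_submatrix]
      ext x y
      simp
    refine base_of T hA (M⁻¹.submatrix e.symm id) ?_ ?_
    · rw [hM2, Matrix.submatrix_mul_equiv, Matrix.mul_nonsing_inv M hu, Matrix.submatrix_id_id]
    · rw [hM2]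
      have h3 := Matrix.submatrix_mul_equiv M⁻¹ M e.symm (Equiv.refl _) e.symm
      have h4 : (M⁻¹).submatrix e.symm id * M.submatrix id e.symm =
          (M⁻¹ * M).submatrix e.symm e.symm := h3
      rw [h4, Matrix.nonsing_inv_mul M hu, Matrix.submatrix_one_equiv]

open Classical in
theorem eval_num {D : Finset (Fin s → ℤ)} {J : Ideal (MvPolynomial (Fin n) ℂ)}
    {A B : Finset (Mon n)} (e : dom T D B ≃ dom T D A) (hA : T.IsBase D A J)
    (hB : T.IsBase D B J) (q : Mon n × Mon n) :
    eval (T.co D A J) (num T e q) =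
      ((mt T D J B A).submatrix id e).det * T.co D B J q := by
  obtain ⟨M, hM⟩ : ∃ M, M = (mt T D J B A).submatrix id e := ⟨_, rfl⟩
  obtain ⟨N, hN⟩ : ∃ N, N = (mt T D J A B).submatrix e id := ⟨_, rfl⟩
  have hMN : M * N = 1 := by rw [hM, hN]; exact right_inv T e hA hB
  have hadj : M.adjugate = M.det • N := by
    calc M.adjugate = M.adjugate * (M * N) := by rw [hMN, mul_one]
      _ = M.adjugate * M * N := by rw [Matrix.mul_assoc]
      _ = M.det • N := by rw [Matrix.adjugate_mul, Matrix.smul_mul, Matrix.one_mul]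
  rw [← hM]
  unfold num
  by_cases h : T.wt q.1 ∈ D ∧ q.2 ∈ dom T D B
  · rw [dif_pos h, map_sum]
    have h1 : ∀ a : dom T D A, eval (T.co D A J) (X (q.1, a.1) *
        (MX T e).adjugate (e.symm a) ⟨q.2, h.2⟩) =
        M.det * (T.co D A J (q.1, a.1) * T.co D B J (a.1, q.2)) := by
      intro a
      have h2 : eval (T.co D A J) ((MX T e).adjugate (e.symm a) ⟨q.2, h.2⟩) =
          M.adjugate (e.symm a) ⟨q.2, h.2⟩ := by
        have h3 := RingHom.map_adjugate (eval (T.co D A J)) (MX T e)
        rw [eval_MX, ← hM] at h3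
        rw [← h3]
        rfl
      rw [map_mul, eval_X, h2, hadj, Matrix.smul_apply, hN, Matrix.submatrix_apply,
        Equiv.apply_symm_apply, smul_eq_mul]
      show T.co D A J (q.1, a.1) * (M.det * T.co D B J (a.1, q.2)) = _
      ring
    rw [Finset.sum_congr rfl fun a _ => h1 a, ← Finset.mul_sum]
    congr 1
    have h2 := comp T (d := fun a b => T.co D B J (a, b)) (co_red T hA h.1)
      fun a _ hwa => co_red T hB (hwa ▸ h.1)
    have h3 : T.co D B J (q.1, q.2) =
        ∑ a ∈ A, T.co D A J (q.1, a) * T.co D B J (a, q.2) := co_uniq T hB h.1 h2 q.2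
    rw [show q = (q.1, q.2) from rfl, h3]
    refine sum_dom T (fun a => T.co D A J (q.1, a) * T.co D B J (a, q.2)) fun a ha => ?_
    by_contra h4
    exact ha (by rw [co_out T h4, mul_zero])
  · rw [dif_neg h, map_zero]
    have h1 : T.co D B J q = 0 := by
      by_contra h2
      by_cases h3 : T.wt q.1 ∈ D
      · have h4 := (co_red T hB h3).1 q.2 h2
        exact h ⟨h3, (mem_dom T).2 ⟨h4.1, h4.2 ▸ h3⟩⟩
      · exact h2 (co_out T h3 q.2)
    rw [h1, mul_zero]

/-- **CHANGE** -/
theorem t_CHANGE : S_CHANGE := by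
  classical
  intro n s T D A B P
  by_cases hcard : Nonempty (dom T D B ≃ dom T D A)
  · obtain ⟨e⟩ := hcard
    have hdet : ∀ J, eval (T.co D A J) (MX T e).det =
        ((mt T D J B A).submatrix id e).det := by
      intro J
      rw [RingHom.map_det, eval_MX]
    have key : ∃ (N : ℕ) (R : MvPolynomial (Mon n × Mon n) ℂ), ∀ J, T.IsBase D A J →
        T.IsBase D B J → eval (T.co D B J) P * eval (T.co D A J) (MX T e).det ^ N =
          eval (T.co D A J) R := by
      induction P using MvPolynomial.induction_on with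
      | C r => exact ⟨0, C r, fun J _ _ => by rw [eval_C, eval_C, pow_zero, mul_one]⟩
      | add p q hp hq =>
        obtain ⟨N1, R1, h1⟩ := hp
        obtain ⟨N2, R2, h2⟩ := hq
        refine ⟨N1 + N2, R1 * (MX T e).det ^ N2 + R2 * (MX T e).det ^ N1, fun J hA hB => ?_⟩
        rw [map_add, map_add, map_mul, map_mul, map_pow, map_pow, ← h1 J hA hB, ← h2 J hA hB]
        ring
      | mul_X p q hp =>
        obtain ⟨N1, R1, h1⟩ := hp
        refine ⟨N1 + 1, R1 * num T e q, fun J hA hB => ?_⟩
        rw [map_mul, map_mul, eval_X, ← h1 J hA hB, eval_num T e hA hB q, ← hdet]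
        ring
    obtain ⟨N, R, hR⟩ := key
    refine ⟨(MX T e).det * R, fun J hA => ?_⟩
    rw [map_mul]
    constructor
    · rintro ⟨hB, hP⟩
      have h1 : eval (T.co D A J) (MX T e).det ≠ 0 := by
        rw [hdet]
        exact (det_ne T e hA).1 hB
      refine mul_ne_zero h1 ?_
      rw [← hR J hA hB]
      exact mul_ne_zero hP (pow_ne_zero _ h1)
    · intro h
      have h1 := left_ne_zero_of_mul h
      have h2 := right_ne_zero_of_mul h
      have hB : T.IsBase D B J := by
        rw [hdet] at h1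
        exact (det_ne T e hA).2 h1
      rw [← hR J hA hB] at h2
      exact ⟨hB, left_ne_zero_of_mul h2⟩
  · refine ⟨0, fun J hA => ⟨fun h => ?_, fun h => absurd (map_zero _) h⟩⟩
    exact absurd ⟨Fintype.equivOfCardEq (Matrix.square_of_invertible (mt T D J B A)
      (mt T D J A B) (mt_mul T h.1 hA) (mt_mul T hA h.1))⟩ hcard

end Pool.Agent.H813.VS_CHANGE
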