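import Mathlib
import Pool.Agent.H892.VS.Stm

/-!
# VS-DENSE (for helper892): density of the ideals of points
-/

set_option autoImplicit false

open MvPolynomial

namespace Pool.Agent.H772.VS_DENSE

open Pool.Agent.H892.VS

theorem red_iff {n s : ℕ} (T : Cox n s) {D : Finset (Fin s → ℤ)} (A M : Finset (Mon n))
    (hM : ∀ m, T.wt m ∈ D → m ∈ M) (J : Ideal (MvPolynomial (Fin n) ℂ)) {m : Mon n}
    (hm : T.wt m ∈ D) (c : Mon n → ℂ) : T.Red (A ∩ M) J m c ↔ T.Red A J m c := by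
  have h0 : (∀ a, c a ≠ 0 → a ∈ A ∩ M ∧ T.wt a = T.wt m) ↔
      (∀ a, c a ≠ 0 → a ∈ A ∧ T.wt a = T.wt m) := by
    constructor
    · intro h a ha
      exact ⟨(Finset.mem_inter.1 (h a ha).1).1, (h a ha).2⟩
    · intro h a ha
      refine ⟨Finset.mem_inter.2 ⟨(h a ha).1, hM a ?_⟩, (h a ha).2⟩
      rw [(h a ha).2]
      exact hm
  unfold Cox.Red
  rw [h0]
  refine and_congr_right fun h => ?_
  have h1 : ∑ a ∈ A ∩ M, monomial a (c a) = ∑ a ∈ A, monomial a (c a) := by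
    refine Finset.sum_subset Finset.inter_subset_left fun a _ haM => ?_
    have hc : c a = 0 := by
      by_contra hne
      exact haM ((h0.2 h) a hne).1
    rw [hc, map_zero]
  rw [h1]

theorem base_inter {n s : ℕ} (T : Cox n s) {D : Finset (Fin s → ℤ)} (A M : Finset (Mon n))
    (hM : ∀ m, T.wt m ∈ D → m ∈ M) {J : Ideal (MvPolynomial (Fin n) ℂ)}
    (h : T.IsBase D A J) : T.IsBase D (A ∩ M) J := by
  intro m hm
  obtain ⟨c, hc, hu⟩ := h m hm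
  exact ⟨c, (red_iff T A M hM J hm c).2 hc, fun c' hc' => hu c' ((red_iff T A M hM J hm c').1 hc')⟩

/-- open sets in an affine chart -/
theorem dense_open (h2 : S_CHANGE) {n s : ℕ} (T : Cox n s) (D : Finset (Fin s → ℤ))
    {O : Set (Ideal (MvPolynomial (Fin n) ℂ))}
    (hO : TopologicalSpace.GenerateOpen {O | ∃ A P, O = T.bo D A P} O) :
    ∀ J ∈ O, ∀ A, T.IsBase D A J → ∃ Q, J ∈ T.bo D A Q ∧ T.bo D A Q ⊆ O := by
  induction hO with
  | basic O h =>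
    obtain ⟨A', P', rfl⟩ := h
    intro J hJ A hA
    obtain ⟨Q, hQ⟩ := h2 n s T D A A' P'
    exact ⟨Q, ⟨hA, (hQ J hA).1 hJ⟩, fun J' hJ' => (hQ J' hJ'.1).2 hJ'.2⟩
  | univ =>
    intro J _ A hA
    refine ⟨1, ⟨hA, ?_⟩, Set.subset_univ _⟩
    rw [map_one]
    exact one_ne_zero
  | inter O₁ O₂ _ _ ih₁ ih₂ =>
    intro J hJ A hA
    obtain ⟨Q₁, hQ₁, hs₁⟩ := ih₁ J hJ.1 A hA
    obtain ⟨Q₂, hQ₂, hs₂⟩ := ih₂ J hJ.2 A hA
    refine ⟨Q₁ * Q₂, ⟨hA, ?_⟩, fun J' hJ' => ?_⟩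
    · rw [map_mul]
      exact mul_ne_zero hQ₁.2 hQ₂.2
    · have h3 := hJ'.2
      rw [map_mul] at h3
      exact ⟨hs₁ ⟨hJ'.1, left_ne_zero_of_mul h3⟩, hs₂ ⟨hJ'.1, right_ne_zero_of_mul h3⟩⟩
  | sUnion S _ ih =>
    intro J hJ A hA
    obtain ⟨O', hO', hJO'⟩ := hJ
    obtain ⟨Q, hQ, hs⟩ := ih O' hO' J hJO' A hA
    exact ⟨Q, hQ, hs.trans (Set.subset_sUnion_of_mem hO')⟩

theorem t_DENSE (h1 : S_CHART) (h2 : S_CHANGE) (h3 : S_BASE) (h4 : S_IRR) : S_DENSE := by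
  classical
  intro n s r T v D hv
  choose a ha hd using fun A => h1 n s r T v D hv A
  have hprod : ∀ 𝒜 : Finset (Finset (Mon n)), ∃ F ∈ T.sig v r,
      eval F (∏ A ∈ 𝒜, a A) ≠ 0 := by
    intro 𝒜
    induction 𝒜 using Finset.induction_on with
    | empty =>
      obtain ⟨F, hF, -⟩ := ha ∅
      refine ⟨F, hF, ?_⟩
      rw [Finset.prod_empty, map_one]
      exact one_ne_zero
    | insert A 𝒜 hA ih =>
      rw [Finset.prod_insert hA]
      exact h4 n s r T v _ _ (ha A) ih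
  obtain ⟨M, hM⟩ : ∃ M : Finset (Mon n), M = D.biUnion T.mon := ⟨_, rfl⟩
  have hMD : ∀ m, T.wt m ∈ D → m ∈ M := by
    intro m hm
    rw [hM, Finset.mem_biUnion]
    refine ⟨T.wt m, hm, ?_⟩
    unfold Cox.mon
    rw [Set.Finite.mem_toFinset]
    rfl
  refine ⟨∏ A ∈ M.powerset, a A, hprod _, fun F hF hne J hJ => ?_⟩
  refine (@mem_closure_iff _ (T.zar D) _ _).2 fun O hO hJO => ?_
  obtain ⟨A', hA'⟩ := h3 n s T D J
  have hA := base_inter T A' M hMD hA'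
  obtain ⟨Q, hQ, hs⟩ := dense_open h2 T D hO J hJO (A' ∩ M) hA
  rw [map_prod, Finset.prod_ne_zero_iff] at hne
  have hne' := hne (A' ∩ M) (Finset.mem_powerset.2 Finset.inter_subset_right)
  obtain ⟨x, hx1, hx2, hx3⟩ := hd (A' ∩ M) F hF hne' J hJ Q hQ
  exact ⟨T.ptIdeal x, hs hx3, hx2, x, hx1, rfl⟩

end Pool.Agent.H772.VS_DENSE
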