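import Mathlib
import Pool.Agent.H892.VS.Stm

/-!
# VS-FREE: injectivity of multiplication on the general fibre (helper127 for helper892)
-/

set_option autoImplicit false

namespace Pool.Agent.H127.VS_FREE

open Pool.Agent.H892.VS

/-- Finitely many elements of a localisation at the powers of `a` have a common denominator `a ^ N`. -/
lemma denom {A M P : Type} [CommRing A] [AddCommGroup M] [Module A M] [AddCommGroup P] [Module A P]
    (a : A) (f : M →ₗ[A] P) [IsLocalizedModule (Submonoid.powers a) f] {k : ℕ} (y : Fin k → P) :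
    ∃ (N : ℕ) (z : Fin k → M), ∀ j, a ^ N • y j = f (z j) := by
  have h1 : ∀ j, ∃ (m : ℕ) (z : M), a ^ m • y j = f z := by
    intro j
    obtain ⟨⟨z, s⟩, hz⟩ := IsLocalizedModule.surj (Submonoid.powers a) f (y j)
    obtain ⟨s, m, rfl⟩ := s
    exact ⟨m, z, hz⟩
  choose m z hz using h1
  refine ⟨∑ j, m j, fun j => a ^ (∑ j, m j - m j) • z j, fun j => ?_⟩
  rw [map_smul, ← hz, smul_smul, ← pow_add,
    Nat.sub_add_cancel (Finset.single_le_sum (fun i _ => Nat.zero_le (m i)) (Finset.mem_univ j))]

/-- Finitely many elements which vanish in the localisation are killed by a power of `a`. -/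
lemma kill {A M P : Type} [CommRing A] [AddCommGroup M] [Module A M] [AddCommGroup P] [Module A P]
    (a : A) (f : M →ₗ[A] P) [IsLocalizedModule (Submonoid.powers a) f] {k : ℕ} (y : Fin k → M)
    (hy : ∀ j, f (y j) = 0) : ∃ N : ℕ, ∀ j, a ^ N • y j = 0 := by
  have h1 : ∀ j, ∃ m : ℕ, a ^ m • y j = 0 := by
    intro j
    obtain ⟨s, hs⟩ := (IsLocalizedModule.eq_zero_iff (Submonoid.powers a) f).1 (hy j)
    obtain ⟨s, m, rfl⟩ := s
    exact ⟨m, hs⟩
  choose m hm using h1
  refine ⟨∑ j, m j, fun j => ?_⟩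
  rw [← Nat.sub_add_cancel (Finset.single_le_sum (fun i _ => Nat.zero_le (m i))
    (Finset.mem_univ j)), pow_add, mul_smul, hm, smul_zero]

/-- A relation in `M` becomes trivial after multiplication by a power of `a`, if the localisation of
`M` is flat. -/
lemma rel {A M P : Type} [CommRing A] [AddCommGroup M] [Module A M] [AddCommGroup P] [Module A P]
    (a : A) (f : M →ₗ[A] P) [IsLocalizedModule (Submonoid.powers a) f] [Module.Flat A P] {l : ℕ}
    (c : Fin l → A) (x : Fin l → M) (h : ∑ i, c i • x i = 0) :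
    ∃ (N k : ℕ) (e : Fin l → Fin k → A) (z : Fin k → M),
      (∀ i, a ^ N • x i = ∑ j, e i j • z j) ∧ ∀ j, ∑ i, c i * e i j = 0 := by
  have h1 : ∑ i, c i • f (x i) = 0 := by
    have h2 := congrArg f h
    rw [map_sum, map_zero] at h2
    simpa only [map_smul] using h2
  obtain ⟨k, e, y, he, hce⟩ := Module.Flat.isTrivialRelation_of_sum_smul_eq_zero h1
  have he' : ∀ i, f (x i) = ∑ j, e i j • y j := he
  obtain ⟨N, z, hz⟩ := denom a f y
  have h3 : ∀ i, f (a ^ N • x i - ∑ j, e i j • z j) = 0 := by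
    intro i
    rw [map_sub, map_smul, he' i, map_sum, Finset.smul_sum, sub_eq_zero]
    refine Finset.sum_congr rfl fun j _ => ?_
    rw [map_smul, ← hz, smul_comm]
  obtain ⟨N', hN'⟩ := kill a f _ h3
  refine ⟨N' + N, k, e, fun j => a ^ N' • z j, fun i => ?_, hce⟩
  have h4 := hN' i
  rw [smul_sub, sub_eq_zero, smul_smul, ← pow_add, Finset.smul_sum] at h4
  rw [h4]
  exact Finset.sum_congr rfl fun j _ => smul_comm _ _ _

/-- VS-FREE -/
theorem t_FREE (h1 : S_GFREE) : S_FREE := by
  intro A B _ _ _ _ _ _ _ b hb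
  obtain ⟨a, ha, hfree⟩ := h1 A B (B ⧸ Ideal.span {b})
  refine ⟨a, ha, fun m hm ham x hx => ?_⟩
  have hflat1 : Module.Flat (Localization.Away a)
      (LocalizedModule (Submonoid.powers a) (B ⧸ Ideal.span {b})) := inferInstance
  have hflat2 : Module.Flat A (Localization.Away a) :=
    IsLocalization.flat (Localization.Away a) (Submonoid.powers a)
  have hflat : Module.Flat A (LocalizedModule (Submonoid.powers a) (B ⧸ Ideal.span {b})) :=
    Module.Flat.trans A (Localization.Away a) _
  -- the relation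
  obtain ⟨l, c, g, hcg⟩ := (Submodule.mem_span_set' (R := B)).1 hx
  have hg : ∀ i, ∃ t ∈ m, algebraMap A B t = (g i : B) := fun i => (g i).2
  choose t ht htg using hg
  have hrel : ∑ i, t i • (Ideal.Quotient.mk (Ideal.span {b}) (c i)) = 0 := by
    have h2 : ∀ i, t i • (Ideal.Quotient.mk (Ideal.span {b}) (c i)) =
        Ideal.Quotient.mk (Ideal.span {b}) (c i • (g i : B)) := by
      intro i
      rw [← htg, smul_eq_mul, mul_comm, ← Algebra.smul_def]
      rfl
    rw [Finset.sum_congr rfl fun i _ => h2 i, ← map_sum, hcg, Ideal.Quotient.eq_zero_iff_mem]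
    exact Ideal.mul_mem_right _ _ (Ideal.mem_span_singleton_self b)
  obtain ⟨N, k, e, z, he, hce⟩ := rel a
    (LocalizedModule.mkLinearMap (Submonoid.powers a) (B ⧸ Ideal.span {b})) t _ hrel
  have hz : ∀ j, ∃ w : B, Ideal.Quotient.mk (Ideal.span {b}) w = z j := fun j =>
    Ideal.Quotient.mk_surjective (z j)
  choose w hw using hz
  have hd : ∀ i, ∃ d : B, a ^ N • c i - ∑ j, e i j • w j = b * d := by
    intro i
    have h2 : Ideal.Quotient.mk (Ideal.span {b}) (a ^ N • c i - ∑ j, e i j • w j) = 0 := by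
      rw [map_sub, map_sum, sub_eq_zero]
      have h3 : ∀ j, Ideal.Quotient.mk (Ideal.span {b}) (e i j • w j) = e i j • z j := fun j => by
        rw [← hw j]
        rfl
      rw [Finset.sum_congr rfl fun j _ => h3 j, ← he i]
      rfl
    rw [Ideal.Quotient.eq_zero_iff_mem, Ideal.mem_span_singleton] at h2
    exact h2
  choose d hd using hd
  have hcd : ∀ i, a ^ N • c i = ∑ j, e i j • w j + b * d i := fun i => by
    rw [← hd i]
    ring
  have hbx : b * x = ∑ i, t i • c i := by
    have h2 : b * x = ∑ i, c i • (g i : B) := hcg.symm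
    rw [h2]
    refine Finset.sum_congr rfl fun i _ => ?_
    rw [← htg, smul_eq_mul, mul_comm, ← Algebra.smul_def]
  have hmain : b * (a ^ N • x) = b * ∑ i, t i • d i := by
    have h2 : a ^ N • (b * x) = ∑ i, t i • (a ^ N • c i) := by
      rw [hbx, Finset.smul_sum]
      exact Finset.sum_congr rfl fun i _ => smul_comm _ _ _
    have h3 : ∑ i, t i • (∑ j, e i j • w j) = 0 := by
      simp only [Finset.smul_sum, smul_smul]
      rw [Finset.sum_comm]
      refine Finset.sum_eq_zero fun j _ => ?_
      rw [← Finset.sum_smul, hce j, zero_smul]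
    rw [mul_smul_comm, h2, Finset.sum_congr rfl fun i _ => by rw [hcd i, smul_add],
      Finset.sum_add_distrib, h3, zero_add, Finset.mul_sum]
    exact Finset.sum_congr rfl fun i _ => (mul_smul_comm _ _ _).symm
  have hxN : a ^ N • x ∈ m.map (algebraMap A B) := by
    rw [mul_left_cancel₀ hb hmain]
    refine Ideal.sum_mem _ fun i _ => ?_
    rw [Algebra.smul_def]
    exact Ideal.mul_mem_right _ _ (Ideal.mem_map_of_mem _ (ht i))
  have haN : a ^ N ∉ m := fun h => ham (hm.isPrime.mem_of_pow_mem N h)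
  obtain ⟨y, i, hi, hyi⟩ := hm.exists_inv haN
  have hx1 : x = y • (a ^ N • x) + i • x := by
    rw [smul_smul, ← add_smul, hyi, one_smul]
  rw [hx1]
  refine Ideal.add_mem _ ?_ ?_
  · rw [Algebra.smul_def]
    exact Ideal.mul_mem_left _ _ hxN
  · rw [Algebra.smul_def]
    exact Ideal.mul_mem_right _ _ (Ideal.mem_map_of_mem _ hi)

end Pool.Agent.H127.VS_FREE
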