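import Mathlib
import Pool.Agent.H892.VS.Stm

/-!
# The image of a rational map contains a nonempty open subset of its closure
-/

set_option autoImplicit false

open MvPolynomial Pool.Agent.H892.VS

namespace Pool.Agent.H94.VS_GFA

section
variable {ι κ : Type}

/-- the ring homomorphism `y_i ↦ g_i / q^k` -/
noncomputable def fh (q : MvPolynomial ι ℂ) (g : κ → MvPolynomial ι ℂ) (k : ℕ) :
    MvPolynomial κ ℂ →ₐ[ℂ] Localization.Away q :=
  aeval fun i => algebraMap (MvPolynomial ι ℂ) (Localization.Away q) (g i) *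
    (IsLocalization.Away.invSelf q) ^ k

/-- evaluation at a point where `q` does not vanish -/
noncomputable def ez (q : MvPolynomial ι ℂ) (z : ι → ℂ) (hz : eval z q ≠ 0) :
    Localization.Away q →+* ℂ :=
  IsLocalization.Away.lift q (g := eval z) (IsUnit.mk0 _ hz)

lemma ez_alg (q : MvPolynomial ι ℂ) (z : ι → ℂ) (hz : eval z q ≠ 0) (a : MvPolynomial ι ℂ) :
    ez q z hz (algebraMap _ _ a) = eval z a :=
  IsLocalization.Away.lift_eq q (IsUnit.mk0 _ hz) a

lemma ez_inv (q : MvPolynomial ι ℂ) (z : ι → ℂ) (hz : eval z q ≠ 0) :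
    ez q z hz (IsLocalization.Away.invSelf q) = (eval z q)⁻¹ := by
  have h := IsLocalization.Away.mul_invSelf (S := Localization.Away q) q
  have h2 := congrArg (ez q z hz) h
  rw [map_mul, map_one, ez_alg] at h2
  exact eq_inv_of_mul_eq_one_right h2

lemma ez_fh (q : MvPolynomial ι ℂ) (g : κ → MvPolynomial ι ℂ) (k : ℕ) (z : ι → ℂ)
    (hz : eval z q ≠ 0) (Q : MvPolynomial κ ℂ) :
    ez q z hz (fh q g k Q) = eval (rat q g k z) Q := by
  have h : (ez q z hz).comp (fh q g k : MvPolynomial κ ℂ →+* Localization.Away q) =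
      eval (rat q g k z) := by
    refine MvPolynomial.ringHom_ext (fun r => ?_) (fun i => ?_)
    · rw [RingHom.comp_apply, eval_C]
      show ez q z hz (fh q g k (C r)) = r
      have e1 : fh q g k (C r) = algebraMap (MvPolynomial ι ℂ) (Localization.Away q) (C r) := by
        rw [← MvPolynomial.algebraMap_eq, AlgHom.commutes, ← MvPolynomial.algebraMap_eq,
          ← IsScalarTower.algebraMap_apply]
      rw [e1, ez_alg, eval_C]
    · rw [RingHom.comp_apply, eval_X]
      show ez q z hz (fh q g k (X i)) = rat q g k z i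
      unfold fh
      rw [aeval_X, map_mul, map_pow, ez_alg, ez_inv]
      unfold rat
      rw [inv_pow, div_eq_mul_inv]
  exact RingHom.congr_fun h Q

end

theorem t_GFA : S_GFA := by
  intro ι κ _ _ q g k hq
  have hdom : IsDomain (Localization.Away q) :=
    IsLocalization.isDomain_localization (powers_le_nonZeroDivisors_of_noZeroDivisors hq)
  have hinj : Function.Injective
      (algebraMap (MvPolynomial ι ℂ) (Localization.Away q)) :=
    IsLocalization.injective _ (powers_le_nonZeroDivisors_of_noZeroDivisors hq)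
  obtain ⟨f, hf⟩ : ∃ f : MvPolynomial κ ℂ →+* Localization.Away q,
      f = (fh q g k : MvPolynomial κ ℂ →+* Localization.Away q) := ⟨_, rfl⟩
  have hfe : ∀ (z : ι → ℂ) (hz : eval z q ≠ 0) (Q : MvPolynomial κ ℂ),
      ez q z hz (f Q) = eval (rat q g k z) Q := by
    intro z hz Q
    rw [hf]
    exact ez_fh q g k z hz Q
  have hfin : f.FinitePresentation := by
    rw [← RingHom.FinitePresentation.of_finiteType]
    refine RingHom.FiniteType.of_comp_finiteType (f := algebraMap ℂ (MvPolynomial κ ℂ)) ?_
    have e1 : f.comp (algebraMap ℂ (MvPolynomial κ ℂ)) = algebraMap ℂ (Localization.Away q) := by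
      rw [hf]
      exact (fh q g k).comp_algebraMap
    rw [e1, RingHom.finiteType_algebraMap]
    infer_instance
  obtain ⟨S, hS⟩ := PrimeSpectrum.exists_constructibleSetData_iff.mpr
    (PrimeSpectrum.isConstructible_range_comap hfin)
  -- the generic point
  obtain ⟨η, hη⟩ : ∃ η : PrimeSpectrum (Localization.Away q), η.asIdeal = ⊥ :=
    ⟨⟨⊥, Ideal.isPrime_bot⟩, rfl⟩
  have h1 : PrimeSpectrum.comap f η ∈ S.toSet := by
    rw [hS]
    exact ⟨η, rfl⟩
  unfold PrimeSpectrum.ConstructibleSetData.toSet at h1
  rw [Set.mem_iUnion₂] at h1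
  obtain ⟨D, hD, h2⟩ := h1
  obtain ⟨h3, h4⟩ := h2
  rw [PrimeSpectrum.mem_zeroLocus] at h3 h4
  have hker : ∀ Q : MvPolynomial κ ℂ, Q ∈ (PrimeSpectrum.comap f η).asIdeal ↔ f Q = 0 := by
    intro Q
    rw [PrimeSpectrum.comap_asIdeal, hη, Ideal.mem_comap, Ideal.mem_bot]
  have hb : f D.f ≠ 0 := by
    intro h
    apply h4
    intro x hx
    rw [Set.mem_singleton_iff] at hx
    rw [hx]
    exact (hker _).2 h
  have hg : ∀ i, f (D.g i) = 0 := fun i => (hker _).1 (h3 ⟨i, rfl⟩)
  refine ⟨D.f, ?_, ?_⟩
  · obtain ⟨n, a, ha⟩ := IsLocalization.Away.surj q (f D.f)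
    have ha0 : a ≠ 0 := by
      intro h
      rw [h, map_zero] at ha
      rcases mul_eq_zero.1 ha with h5 | h5
      · exact hb h5
      · have h6 : algebraMap (MvPolynomial ι ℂ) (Localization.Away q) q = 0 := by
          by_contra h6
          exact pow_ne_zero n h6 h5
        exact hq (hinj (by rw [h6, map_zero]))
    have h7 : ∃ z, eval z (q * a) ≠ 0 := by
      by_contra hcon
      push Not at hcon
      have h8 : q * a = 0 := MvPolynomial.funext fun z => by rw [hcon z, map_zero]
      rcases mul_eq_zero.1 h8 with h9 | h9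
      · exact hq h9
      · exact ha0 h9
    obtain ⟨z, hz⟩ := h7
    rw [map_mul] at hz
    have hzq := left_ne_zero_of_mul hz
    have hza := right_ne_zero_of_mul hz
    refine ⟨z, hzq, ?_⟩
    rw [← hfe z hzq]
    intro h8
    have h9 := congrArg (ez q z hzq) ha
    rw [map_mul, h8, zero_mul, ez_alg] at h9
    exact hza h9.symm
  · intro y hy hby
    obtain ⟨P, hP⟩ : ∃ P : PrimeSpectrum (MvPolynomial κ ℂ),
        P.asIdeal = RingHom.ker (eval y) :=
      ⟨⟨RingHom.ker (eval y), RingHom.ker_isPrime _⟩, rfl⟩
    have hPS : P ∈ S.toSet := by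
      unfold PrimeSpectrum.ConstructibleSetData.toSet
      rw [Set.mem_iUnion₂]
      refine ⟨D, hD, ?_, ?_⟩
      · rw [PrimeSpectrum.mem_zeroLocus, hP]
        rintro _ ⟨i, rfl⟩
        show D.g i ∈ RingHom.ker (eval y)
        rw [RingHom.mem_ker]
        refine hy _ fun z hz => ?_
        rw [← hfe z hz, hg i, map_zero]
      · rw [PrimeSpectrum.mem_zeroLocus, hP]
        intro h
        have h5 : D.f ∈ RingHom.ker (eval y) := h rfl
        rw [RingHom.mem_ker] at h5
        exact hby h5
    rw [hS] at hPS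
    obtain ⟨N, hN⟩ := hPS
    -- the prime ideal of the polynomial ring
    obtain ⟨N', hN'⟩ : ∃ N' : Ideal (MvPolynomial ι ℂ),
        N' = N.asIdeal.comap (algebraMap (MvPolynomial ι ℂ) (Localization.Away q)) := ⟨_, rfl⟩
    have hN'p : N'.IsPrime := by
      rw [hN']
      exact Ideal.comap_isPrime _ _
    have hunit : IsUnit (algebraMap (MvPolynomial ι ℂ) (Localization.Away q) q) :=
      IsLocalization.Away.algebraMap_isUnit q
    have hqN : q ∉ N' := by
      intro h
      rw [hN', Ideal.mem_comap] at h
      exact N.isPrime.ne_top (Ideal.eq_top_of_isUnit_mem _ h hunit)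
    have hvan := MvPolynomial.IsPrime.vanishingIdeal_zeroLocus (K := ℂ) N'
    have hz : ∃ z ∈ zeroLocus ℂ N', eval z q ≠ 0 := by
      by_contra hcon
      push Not at hcon
      apply hqN
      rw [← hvan, mem_vanishingIdeal_iff]
      intro z hz
      have := hcon z hz
      rwa [MvPolynomial.aeval_eq_eval]
    obtain ⟨z, hz1, hz2⟩ := hz
    refine ⟨z, hz2, funext fun i => ?_⟩
    have h5 : X i - C (y i) ∈ P.asIdeal := by
      rw [hP, RingHom.mem_ker, map_sub, eval_X, eval_C, sub_self]
    rw [← hN, PrimeSpectrum.comap_asIdeal, Ideal.mem_comap] at h5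
    have h6 : g i - C (y i) * q ^ k ∈ N' := by
      rw [hN', Ideal.mem_comap]
      have e1 : algebraMap (MvPolynomial ι ℂ) (Localization.Away q) (g i - C (y i) * q ^ k) =
          algebraMap (MvPolynomial ι ℂ) (Localization.Away q) q ^ k * f (X i - C (y i)) := by
        have e2 : f (C (y i)) = algebraMap (MvPolynomial ι ℂ) (Localization.Away q) (C (y i)) := by
          rw [hf]
          show fh q g k (C (y i)) = _
          rw [← MvPolynomial.algebraMap_eq, AlgHom.commutes, ← MvPolynomial.algebraMap_eq,
            ← IsScalarTower.algebraMap_apply]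
        have e3 : f (X i) = algebraMap (MvPolynomial ι ℂ) (Localization.Away q) (g i) *
            (IsLocalization.Away.invSelf q) ^ k := by
          rw [hf]
          show fh q g k (X i) = _
          unfold fh
          rw [aeval_X]
        have e4 := IsLocalization.Away.mul_invSelf (S := Localization.Away q) q
        rw [map_sub, map_sub, map_mul, map_pow, e2, e3, mul_sub]
        have e5 : algebraMap (MvPolynomial ι ℂ) (Localization.Away q) q ^ k *
            (algebraMap (MvPolynomial ι ℂ) (Localization.Away q) (g i) *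
              (IsLocalization.Away.invSelf q) ^ k) =
            algebraMap (MvPolynomial ι ℂ) (Localization.Away q) (g i) *
              (algebraMap (MvPolynomial ι ℂ) (Localization.Away q) q *
                IsLocalization.Away.invSelf q) ^ k := by
          rw [mul_pow]
          ring
        rw [e5, e4, one_pow, mul_one]
        ring
      rw [e1]
      exact Ideal.mul_mem_left _ _ h5
    have h7 := (mem_zeroLocus_iff.1 hz1) _ h6
    rw [MvPolynomial.aeval_eq_eval] at h7
    have h8 : eval z (g i) - y i * eval z q ^ k = 0 := by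
      have h9 : eval z (g i - C (y i) * q ^ k) = 0 := h7
      rwa [map_sub, map_mul, map_pow, eval_C] at h9
    unfold rat
    rw [div_eq_iff (pow_ne_zero _ hz2)]
    exact sub_eq_zero.1 h8

end Pool.Agent.H94.VS_GFA
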