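import Mathlib
import Pool.Agent.H892.VS.Stm

/-!
# Project VS (helper892), task GFB: density in the general fibre
-/

set_option autoImplicit false

open MvPolynomial

namespace Pool.Agent.H981.VS_GFB

open Pool.Agent.H892.VS

section ideal

variable {ι κ : Type} (q : MvPolynomial ι ℂ) (g : κ → MvPolynomial ι ℂ) (k : ℕ)

/-- the ideal of the closure of the image -/
noncomputable def II : Ideal (MvPolynomial κ ℂ) where
  carrier := {Q | ∀ z, eval z q ≠ 0 → eval (rat q g k z) Q = 0}
  zero_mem' := by intro z _; exact map_zero _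
  add_mem' := by
    intro Q Q' h h' z hz
    rw [map_add, h z hz, h' z hz, add_zero]
  smul_mem' := by
    intro c Q h z hz
    rw [smul_eq_mul, map_mul, h z hz, mul_zero]

lemma mem_II {Q : MvPolynomial κ ℂ} :
    Q ∈ II q g k ↔ ∀ z, eval z q ≠ 0 → eval (rat q g k z) Q = 0 := Iff.rfl

/-- the comorphism of the rational map, with values in the localization -/
noncomputable def phi : MvPolynomial κ ℂ →+* Localization.Away q :=
  eval₂Hom ((algebraMap (MvPolynomial ι ℂ) (Localization.Away q)).comp C)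
    (fun i => algebraMap (MvPolynomial ι ℂ) (Localization.Away q) (g i) *
      (IsLocalization.Away.invSelf q) ^ k)

/-- evaluation at `z` on the localization -/
noncomputable def evz (z : ι → ℂ) (hz : eval z q ≠ 0) : Localization.Away q →+* ℂ :=
  IsLocalization.Away.lift (S := Localization.Away q) q (g := eval z) (isUnit_iff_ne_zero.2 hz)

lemma evz_alg (z : ι → ℂ) (hz : eval z q ≠ 0) (p : MvPolynomial ι ℂ) :
    evz q z hz (algebraMap _ _ p) = eval z p := by
  unfold evz
  exact IsLocalization.Away.lift_eq q _ p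

lemma evz_inv (z : ι → ℂ) (hz : eval z q ≠ 0) :
    evz q z hz (IsLocalization.Away.invSelf q) = (eval z q)⁻¹ := by
  have h1 : algebraMap (MvPolynomial ι ℂ) (Localization.Away q) q *
      IsLocalization.Away.invSelf q = 1 := IsLocalization.Away.mul_invSelf q
  have h2 := congrArg (evz q z hz) h1
  rw [map_mul, map_one, evz_alg] at h2
  exact eq_inv_of_mul_eq_one_right h2

lemma evz_phi (z : ι → ℂ) (hz : eval z q ≠ 0) (Q : MvPolynomial κ ℂ) :
    evz q z hz (phi q g k Q) = eval (rat q g k z) Q := by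
  have h : (evz q z hz).comp (phi q g k) = (eval (rat q g k z) : MvPolynomial κ ℂ →+* ℂ) := by
    apply MvPolynomial.ringHom_ext
    · intro r
      rw [RingHom.comp_apply]
      unfold phi
      rw [coe_eval₂Hom, eval₂_C, RingHom.comp_apply, evz_alg, eval_C, eval_C]
    · intro i
      rw [RingHom.comp_apply]
      unfold phi
      rw [coe_eval₂Hom, eval₂_X, map_mul, evz_alg, map_pow, evz_inv, eval_X]
      unfold rat
      rw [div_eq_mul_inv, inv_pow]
  exact congrArg (fun f => f Q) h

lemma II_eq (hq : q ≠ 0) : II q g k = RingHom.ker (phi q g k) := by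
  ext Q
  rw [mem_II, RingHom.mem_ker]
  constructor
  · intro h
    obtain ⟨⟨p, s⟩, hp⟩ := IsLocalization.surj (Submonoid.powers q) (phi q g k Q)
    dsimp only at hp
    have hp0 : p = 0 := by
      have h1 : p * q = 0 := by
        apply MvPolynomial.funext
        intro z
        rw [map_mul, map_zero]
        by_cases hz : eval z q = 0
        · rw [hz, mul_zero]
        · have h2 := congrArg (evz q z hz) hp
          rw [map_mul, evz_phi, h z hz, zero_mul, evz_alg] at h2
          rw [← h2, zero_mul]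
      exact (mul_eq_zero.1 h1).resolve_right hq
    rw [hp0, map_zero] at hp
    have hu : IsUnit (algebraMap (MvPolynomial ι ℂ) (Localization.Away q) s) :=
      IsLocalization.map_units _ s
    exact (hu.mul_left_eq_zero).1 hp
  · intro h z hz
    rw [← evz_phi q g k z hz, h, map_zero]

lemma II_prime (hq : q ≠ 0) : (II q g k).IsPrime := by
  rw [II_eq q g k hq]
  have : IsDomain (Localization.Away q) :=
    IsLocalization.isDomain_localization (powers_le_nonZeroDivisors_of_noZeroDivisors hq)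
  exact RingHom.ker_isPrime _

end ideal

lemma eval_bind {κ μ : Type} (f : μ → MvPolynomial κ ℂ) (y : κ → ℂ) (p : MvPolynomial μ ℂ) :
    eval y (bind₁ f p) = eval (fun j => eval y (f j)) p := by
  have h : (eval y : MvPolynomial κ ℂ →+* ℂ).comp (bind₁ f : MvPolynomial μ ℂ →ₐ[ℂ] _).toRingHom =
      (eval (fun j => eval y (f j)) : MvPolynomial μ ℂ →+* ℂ) := by
    apply MvPolynomial.ringHom_ext
    · intro r
      simp
    · intro i
      simp
  exact congrArg (fun φ => φ p) h

theorem t_GFB (h1 : S_FREE) : S_GFB := by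
  intro ι κ μ _ _ _ q g k f b hq hb
  have hIp : (II q g k).IsPrime := II_prime q g k hq
  obtain ⟨I, hI⟩ : ∃ I, I = II q g k := ⟨_, rfl⟩
  have hmem : ∀ Q, Q ∈ I ↔ ∀ z, eval z q ≠ 0 → eval (rat q g k z) Q = 0 := by
    intro Q
    rw [hI]
    exact mem_II q g k
  rw [← hI] at hIp
  have hdom : IsDomain (MvPolynomial κ ℂ ⧸ I) := Ideal.Quotient.isDomain I
  obtain ⟨ψ, hψ⟩ : ∃ ψ : MvPolynomial μ ℂ →ₐ[ℂ] (MvPolynomial κ ℂ ⧸ I),
      ∀ p, ψ p = Ideal.Quotient.mk I (bind₁ f p) :=
    ⟨(Ideal.Quotient.mkₐ ℂ I).comp (bind₁ f), fun p => rfl⟩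
  have hnoe : IsNoetherianRing ψ.range := AlgHom.isNoetherianRing_range ψ
  have hft : Algebra.FiniteType ℂ (MvPolynomial κ ℂ ⧸ I) :=
    Algebra.FiniteType.of_surjective (Ideal.Quotient.mkₐ ℂ I) (Ideal.Quotient.mkₐ_surjective ℂ I)
  have hft2 : Algebra.FiniteType ψ.range (MvPolynomial κ ℂ ⧸ I) :=
    Algebra.FiniteType.of_restrictScalars_finiteType ℂ ψ.range (MvPolynomial κ ℂ ⧸ I)
  have hbne : (Ideal.Quotient.mk I b) ≠ 0 := by
    intro h
    rw [Ideal.Quotient.eq_zero_iff_mem, hmem] at h
    obtain ⟨z, hz, hz2⟩ := hb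
    exact hz2 (h z hz)
  obtain ⟨a', ha'0, ha'⟩ := h1 ψ.range (MvPolynomial κ ℂ ⧸ I) (Ideal.Quotient.mk I b) hbne
  obtain ⟨a, ha⟩ := a'.2
  refine ⟨a, ?_, ?_⟩
  · by_contra hcon
    push Not at hcon
    apply ha'0
    apply Subtype.ext
    show (a' : MvPolynomial κ ℂ ⧸ I) = 0
    rw [← ha]
    show ψ a = 0
    rw [hψ, Ideal.Quotient.eq_zero_iff_mem, hmem]
    intro z hz
    rw [eval_bind]
    exact hcon z hz
  · intro F hF y P hy hyF hP
    have hyI : ∀ Q ∈ I, eval y Q = 0 := fun Q hQ => hy Q ((hmem Q).1 hQ)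
    obtain ⟨evy, hevy⟩ : ∃ e : (MvPolynomial κ ℂ ⧸ I) →+* ℂ,
        ∀ Q, e (Ideal.Quotient.mk I Q) = eval y Q :=
      ⟨Ideal.Quotient.lift I (eval y) hyI, fun Q => Ideal.Quotient.lift_mk I _ _⟩
    obtain ⟨e, he⟩ : ∃ e : ψ.range →+* ℂ, ∀ x : ψ.range, e x = evy (x : MvPolynomial κ ℂ ⧸ I) :=
      ⟨evy.comp (algebraMap ψ.range (MvPolynomial κ ℂ ⧸ I)), fun x => rfl⟩
    have hsur : Function.Surjective e := by
      intro c
      refine ⟨⟨ψ (C c), ⟨C c, rfl⟩⟩, ?_⟩
      rw [he]
      show evy (ψ (C c)) = c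
      rw [hψ, hevy, eval_bind, eval_C]
    have hmax : (RingHom.ker e).IsMaximal := RingHom.ker_isMaximal_of_surjective e hsur
    have ham : a' ∉ RingHom.ker e := by
      rw [RingHom.mem_ker, he, ← ha]
      show ¬ evy (ψ a) = 0
      rw [hψ, hevy, eval_bind]
      have : (fun j => eval y (f j)) = F := funext hyF
      rw [this]
      exact hF
    have H := ha' (RingHom.ker e) hmax ham
    obtain ⟨M, hM⟩ : ∃ M, M = (RingHom.ker e).map (algebraMap ψ.range (MvPolynomial κ ℂ ⧸ I)) :=
      ⟨_, rfl⟩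
    rw [← hM] at H
    -- elements of `M` vanish at `y`
    have hMy : ∀ x ∈ M, evy x = 0 := by
      have h2 : M ≤ RingHom.ker evy := by
        rw [hM, Ideal.map_le_iff_le_comap]
        intro x hx
        rw [Ideal.mem_comap, RingHom.mem_ker]
        rw [RingHom.mem_ker, he] at hx
        exact hx
      intro x hx
      exact (RingHom.mem_ker).1 (h2 hx)
    have Hpow : ∀ (N : ℕ) (x : MvPolynomial κ ℂ ⧸ I), Ideal.Quotient.mk I b ^ N * x ∈ M → x ∈ M := by
      intro N
      induction N with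
      | zero =>
        intro x hx
        rwa [pow_zero, one_mul] at hx
      | succ N ih =>
        intro x hx
        apply ih
        apply H
        rwa [← mul_assoc, ← pow_succ']
    by_contra hcon
    push Not at hcon
    obtain ⟨K, hK⟩ : ∃ K, K = I ⊔ Ideal.span (Set.range fun j => f j - C (F j)) := ⟨_, rfl⟩
    have hrad : P * b ∈ K.radical := by
      rw [← MvPolynomial.vanishingIdeal_zeroLocus_eq_radical (K := ℂ)]
      rw [MvPolynomial.mem_vanishingIdeal_iff]
      intro y' hy'
      rw [MvPolynomial.mem_zeroLocus_iff] at hy'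
      have e1 : ∀ Q : MvPolynomial κ ℂ, aeval y' Q = eval y' Q := fun Q =>
        DFunLike.congr_fun (coe_aeval_eq_eval y') Q
      have hy1 : y' ∈ imc q g k := by
        intro Q hQ
        have h3 := hy' Q (by rw [hK]; exact Ideal.mem_sup_left ((hmem Q).2 hQ))
        rwa [e1] at h3
      have hy2 : ∀ j, eval y' (f j) = F j := by
        intro j
        have h3 := hy' (f j - C (F j)) (by
          rw [hK]
          exact Ideal.mem_sup_right (Ideal.subset_span ⟨j, rfl⟩))
        rw [e1, map_sub, eval_C, sub_eq_zero] at h3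
        exact h3
      rw [e1, map_mul]
      by_cases hP' : eval y' P = 0
      · rw [hP', zero_mul]
      · rw [hcon y' hy1 hy2 hP', mul_zero]
    obtain ⟨N, hN⟩ := hrad
    have hKM : K ≤ M.comap (Ideal.Quotient.mk I) := by
      rw [hK, sup_le_iff]
      constructor
      · intro Q hQ
        rw [Ideal.mem_comap, Ideal.Quotient.eq_zero_iff_mem.2 hQ]
        exact M.zero_mem
      · rw [Ideal.span_le]
        rintro _ ⟨j, rfl⟩
        show Ideal.Quotient.mk I (f j - C (F j)) ∈ M
        have h4 : (⟨ψ (X j - C (F j)), ⟨_, rfl⟩⟩ : ψ.range) ∈ RingHom.ker e := by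
          rw [RingHom.mem_ker, he]
          show evy (ψ (X j - C (F j))) = 0
          rw [hψ, hevy, eval_bind, map_sub, eval_X, eval_C, hyF, sub_self]
        have h5 := Ideal.mem_map_of_mem (algebraMap ψ.range (MvPolynomial κ ℂ ⧸ I)) h4
        rw [← hM] at h5
        have h6 : algebraMap ψ.range (MvPolynomial κ ℂ ⧸ I) ⟨ψ (X j - C (F j)), ⟨_, rfl⟩⟩ =
            Ideal.Quotient.mk I (f j - C (F j)) := by
          show ψ (X j - C (F j)) = _
          rw [hψ, map_sub, bind₁_X_right, bind₁_C_right]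
        rwa [h6] at h5
    have h7 := hKM hN
    rw [Ideal.mem_comap, mul_pow, mul_comm, map_mul, map_pow] at h7
    have h8 := hMy _ (Hpow N _ h7)
    rw [hevy, map_pow] at h8
    exact pow_ne_zero N hP h8

end Pool.Agent.H981.VS_GFB
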