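import Mathlib

/-!
Generically free sections of modules: a copy of the library module
Pool.Graph.R_pool_sql_team_seeded_1acbe0a2.Y45.HM.Sub under another namespace.
-/

set_option autoImplicit false
set_option linter.unusedSectionVars false

namespace Pool.Agent.H892.VS.HM

section Sub

variable {J Γ A : Type} [CommRing J] [Group Γ] [AddCommGroup A] [Module J A]
  [DistribMulAction Γ A] [SMulCommClass Γ J A]

/-- translate of a submodule by a group element -/
def tr (g : Γ) (N : Submodule J A) : Submodule J A where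
  carrier := {x | g⁻¹ • x ∈ N}
  zero_mem' := by
    show g⁻¹ • (0 : A) ∈ N
    rw [smul_zero]; exact N.zero_mem
  add_mem' := by
    intro a b ha hb
    show g⁻¹ • (a + b) ∈ N
    rw [smul_add]; exact N.add_mem ha hb
  smul_mem' := by
    intro c x hx
    show g⁻¹ • (c • x) ∈ N
    rw [smul_comm]; exact N.smul_mem c hx

theorem mem_tr {g : Γ} {N : Submodule J A} {x : A} : x ∈ tr g N ↔ g⁻¹ • x ∈ N := Iff.rfl

theorem smul_mem_tr {g : Γ} {N : Submodule J A} {x : A} : g • x ∈ tr g N ↔ x ∈ N := by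
  rw [mem_tr, inv_smul_smul]

theorem tr_mono (g : Γ) {N M : Submodule J A} (h : N ≤ M) : tr g N ≤ tr g M := fun _ hx => h hx

theorem tr_tr (g h : Γ) (N : Submodule J A) : tr g (tr h N) = tr (g * h) N := by
  ext x
  rw [mem_tr, mem_tr, mem_tr, mul_inv_rev, mul_smul]

theorem tr_one (N : Submodule J A) : tr (1 : Γ) N = N := by
  ext x
  rw [mem_tr, inv_one, one_smul]

theorem tr_sup (g : Γ) (N M : Submodule J A) : tr g (N ⊔ M) = tr g N ⊔ tr g M := by
  apply le_antisymm
  · intro x hx
    rw [mem_tr, Submodule.mem_sup] at hx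
    obtain ⟨a, ha, b, hb, h⟩ := hx
    rw [Submodule.mem_sup]
    refine ⟨g • a, smul_mem_tr.2 ha, g • b, smul_mem_tr.2 hb, ?_⟩
    rw [← smul_add, h, smul_inv_smul]
  · exact sup_le (tr_mono g le_sup_left) (tr_mono g le_sup_right)

/-- stability under a subgroup -/
def St (K : Subgroup Γ) (N : Submodule J A) : Prop := ∀ g ∈ K, ∀ x ∈ N, g • x ∈ N

theorem St.mono {K K' : Subgroup Γ} {N : Submodule J A} (h : St K N) (hK : K' ≤ K) : St K' N :=
  fun g hg x hx => h g (hK hg) x hx

theorem St.tr_eq {K : Subgroup Γ} {N : Submodule J A} (h : St K N) {g : Γ} (hg : g ∈ K) :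
    tr g N = N := by
  ext x
  rw [mem_tr]
  constructor
  · intro hx
    have := h g hg _ hx
    rwa [smul_inv_smul] at this
  · intro hx
    exact h _ (K.inv_mem hg) _ hx

theorem St.sup {K : Subgroup Γ} {N M : Submodule J A} (h : St K N) (h' : St K M) :
    St K (N ⊔ M) := by
  intro g hg x hx
  rw [Submodule.mem_sup] at hx
  obtain ⟨a, ha, b, hb, rfl⟩ := hx
  rw [smul_add]
  exact Submodule.add_mem _ (Submodule.mem_sup_left (h g hg a ha))
    (Submodule.mem_sup_right (h' g hg b hb))

theorem St.inf {K : Subgroup Γ} {N M : Submodule J A} (h : St K N) (h' : St K M) :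
    St K (N ⊓ M) := fun g hg x hx => ⟨h g hg x hx.1, h' g hg x hx.2⟩

theorem St.tr {K : Subgroup Γ} {N : Submodule J A} (h : St K N) {t : Γ}
    (ht : ∀ x, x ∈ K ↔ t * x * t⁻¹ ∈ K) : St K (tr t N) := by
  intro g hg x hx
  rw [mem_tr] at hx ⊢
  have h1 : t⁻¹ * g * t ∈ K := by
    rw [ht]
    have : t * (t⁻¹ * g * t) * t⁻¹ = g := by group
    rwa [this]
  have h2 := h _ h1 _ hx
  rw [← mul_smul] at h2 ⊢
  have : t⁻¹ * g * t * t⁻¹ = t⁻¹ * g := by group
  rwa [this] at h2

theorem St.tr_inv {K : Subgroup Γ} {N : Submodule J A} (h : St K N) {t : Γ}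
    (ht : ∀ x, x ∈ K ↔ t * x * t⁻¹ ∈ K) : St K (HM.tr t⁻¹ N) := by
  apply h.tr
  intro x
  rw [ht (t⁻¹ * x * t⁻¹⁻¹)]
  have : t * (t⁻¹ * x * t⁻¹⁻¹) * t⁻¹ = x := by group
  rw [this]

theorem norm_pow {K : Subgroup Γ} {t : Γ} (ht : ∀ x, x ∈ K ↔ t * x * t⁻¹ ∈ K) (n : ℕ) :
    ∀ x, x ∈ K ↔ t ^ n * x * (t ^ n)⁻¹ ∈ K := by
  induction n with
  | zero => intro x; simp
  | succ n ih =>
    intro x
    rw [ih x, ht]
    have : t * (t ^ n * x * (t ^ n)⁻¹) * t⁻¹ = t ^ (n + 1) * x * (t ^ (n + 1))⁻¹ := by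
      rw [pow_succ']; group
    rw [this]

/-- linear combination of a finitely supported function -/
noncomputable abbrev lc (l : A →₀ J) : A := Finsupp.linearCombination J (id : A → A) l

theorem lc_mem {B : Set A} {N : Submodule J A} (hB : B ⊆ N) {l : A →₀ J}
    (hl : (l.support : Set A) ⊆ B) : lc l ∈ N := by
  rw [lc, Finsupp.linearCombination_apply]
  exact N.sum_mem fun a ha => N.smul_mem _ (hB (hl ha))

/-- the section `Y/X` becomes free after inverting `τ` -/
def GF (τ : J) (X Y : Submodule J A) : Prop :=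
  ∃ B : Set A, B ⊆ Y ∧
    (∀ l : A →₀ J, (l.support : Set A) ⊆ B → lc l ∈ X → l = 0) ∧
    (∀ y ∈ Y, ∃ (k : ℕ) (l : A →₀ J), (l.support : Set A) ⊆ B ∧ τ ^ k • y - lc l ∈ X)

theorem GF.dvd {τ τ' : J} {X Y : Submodule J A} (h : GF τ X Y) (hd : τ ∣ τ') : GF τ' X Y := by
  obtain ⟨σ, rfl⟩ := hd
  obtain ⟨B, hB, h1, h2⟩ := h
  refine ⟨B, hB, h1, fun y hy => ?_⟩
  obtain ⟨k, l, hl, hk⟩ := h2 y hy
  refine ⟨k, σ ^ k • l, ?_, ?_⟩
  · exact (Finset.coe_subset.2 Finsupp.support_smul).trans hl
  · have h3 := X.smul_mem (σ ^ k) hk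
    rw [smul_sub, ← mul_smul, ← mul_pow, mul_comm σ τ] at h3
    rw [lc, map_smul]
    exact h3

theorem GF.chain {τ : J} (c : ℕ → Submodule J A) (hc : ∀ n, c n ≤ c (n + 1))
    (h : ∀ n, GF τ (c n) (c (n + 1))) : GF τ (c 0) (⨆ n, c n) := by
  classical
  choose B hB h1 h2 using h
  have hmono : Monotone c := monotone_nat_of_le_succ hc
  have key1 : ∀ n, ∀ y ∈ c n, ∃ (k : ℕ) (l : A →₀ J), (l.support : Set A) ⊆ ⋃ i, B i ∧
      τ ^ k • y - lc l ∈ c 0 := by
    intro n
    induction n with
    | zero => intro y hy; exact ⟨0, 0, by simp, by simpa using hy⟩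
    | succ n ih =>
      intro y hy
      obtain ⟨k, l, hl, hk⟩ := h2 n y hy
      obtain ⟨k', l', hl', hk'⟩ := ih _ hk
      refine ⟨k' + k, τ ^ k' • l + l', ?_, ?_⟩
      · intro a ha
        rcases Finset.mem_union.1 (Finsupp.support_add ha) with h | h
        · exact Set.mem_iUnion.2 ⟨n, hl (Finsupp.support_smul h)⟩
        · exact hl' h
      · have : τ ^ (k' + k) • y - lc (τ ^ k' • l + l')
            = τ ^ k' • (τ ^ k • y - lc l) - lc l' := by
          rw [lc, map_add, map_smul, pow_add, mul_smul, smul_sub]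
          abel
        rw [this]; exact hk'
  have key2 : ∀ n, ∀ l : A →₀ J, (∀ a ∈ l.support, ∃ i < n, a ∈ B i) → lc l ∈ c 0 → l = 0 := by
    intro n
    induction n with
    | zero =>
      intro l hl _
      rw [← Finsupp.support_eq_empty, Finset.eq_empty_iff_forall_notMem]
      intro a ha
      obtain ⟨i, hi, _⟩ := hl a ha
      omega
    | succ n ih =>
      intro l hl hl0
      have e1 : l.filter (· ∈ B n) + l.filter (fun a => ¬ a ∈ B n) = l :=
        Finsupp.filter_add_filter_not l _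
      have e2 : lc (l.filter (fun a => ¬ a ∈ B n)) ∈ c n := by
        rw [lc, Finsupp.linearCombination_apply]
        refine Submodule.sum_mem _ fun a ha => Submodule.smul_mem _ _ ?_
        rw [Finsupp.support_filter, Finset.mem_filter] at ha
        obtain ⟨i, hi, hai⟩ := hl a ha.1
        have : i < n := by
          rcases Nat.lt_succ_iff_lt_or_eq.1 hi with h | h
          · exact h
          · subst h; exact absurd hai ha.2
        exact hmono (show i + 1 ≤ n by omega) (hB i hai)
      have e3 : lc (l.filter (· ∈ B n)) ∈ c n := by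
        have e4 : lc (l.filter (· ∈ B n)) = lc l - lc (l.filter (fun a => ¬ a ∈ B n)) := by
          rw [eq_sub_iff_add_eq, lc, lc, lc, ← map_add, e1]
        rw [e4]
        exact Submodule.sub_mem _ (hmono (Nat.zero_le n) hl0) e2
      have e5 : l.filter (· ∈ B n) = 0 := by
        apply h1 n _ _ e3
        intro a ha
        rw [Finset.mem_coe, Finsupp.support_filter, Finset.mem_filter] at ha
        exact ha.2
      rw [e5, zero_add] at e1
      apply ih l _ hl0
      intro a ha
      rw [← e1, Finsupp.support_filter, Finset.mem_filter] at ha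
      obtain ⟨i, hi, hai⟩ := hl a ha.1
      have : i < n := by
        rcases Nat.lt_succ_iff_lt_or_eq.1 hi with h | h
        · exact h
        · subst h; exact absurd hai ha.2
      exact ⟨i, this, hai⟩
  have hmem : ∀ y, y ∈ (⨆ n, c n) ↔ ∃ n, y ∈ c n := fun y =>
    Submodule.mem_iSup_of_directed c hmono.directed_le
  refine ⟨⋃ i, B i, ?_, ?_, ?_⟩
  · intro a ha
    obtain ⟨i, hi⟩ := Set.mem_iUnion.1 ha
    exact (hmem a).2 ⟨i + 1, hB i hi⟩
  · intro l hl hl0
    have : ∀ a : A, ∃ i, a ∈ l.support → a ∈ B i := by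
      intro a
      by_cases ha : a ∈ l.support
      · obtain ⟨i, hi⟩ := Set.mem_iUnion.1 (hl ha)
        exact ⟨i, fun _ => hi⟩
      · exact ⟨0, fun h => absurd h ha⟩
    choose i hi using this
    refine key2 (l.support.sup i + 1) l (fun a ha => ⟨i a, ?_, hi a ha⟩) hl0
    exact Nat.lt_succ_of_le (Finset.le_sup ha)
  · intro y hy
    obtain ⟨n, hn⟩ := (hmem y).1 hy
    exact key1 n y hn

theorem GF.trans {τ : J} {X Y Z : Submodule J A} (h1 : X ≤ Y) (h2 : Y ≤ Z) (h : GF τ X Y)
    (h' : GF τ Y Z) : GF τ X Z := by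
  have hZ : GF τ Z Z := ⟨∅, by simp, fun l hl _ => by
    rw [← Finsupp.support_eq_empty, ← Finset.coe_eq_empty]
    exact Set.subset_empty_iff.1 hl, fun y hy => ⟨0, 0, by simp, by simpa using hy⟩⟩
  have key := GF.chain (τ := τ) (fun n => Nat.casesOn n X (fun n => Nat.casesOn n Y (fun _ => Z))) ?_ ?_
  · have : (⨆ n : ℕ, (Nat.casesOn n X (fun n => Nat.casesOn n Y (fun _ => Z)) : Submodule J A)) = Z := by
      apply le_antisymm
      · refine iSup_le fun n => ?_
        rcases n with _ | _ | n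
        · exact h1.trans h2
        · exact h2
        · exact le_rfl
      · exact le_iSup (fun n : ℕ => (Nat.casesOn n X (fun n => Nat.casesOn n Y (fun _ => Z)) : Submodule J A)) 2
    rw [this] at key
    exact key
  · intro n
    rcases n with _ | _ | n
    · exact h1
    · exact h2
    · exact le_rfl
  · intro n
    rcases n with _ | _ | n
    · exact h
    · exact h'
    · exact hZ

theorem lc_smul (g : Γ) (l : A →₀ J) :
    lc (Finsupp.mapDomain (fun a => g • a) l) = g • lc l := by
  rw [lc, Finsupp.linearCombination_mapDomain, lc, Finsupp.linearCombination_apply,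
    Finsupp.linearCombination_apply, Finsupp.sum, Finsupp.sum, Finset.smul_sum]
  refine Finset.sum_congr rfl fun a _ => ?_
  exact (smul_comm g (l a) a).symm

theorem GF.trans_tr {τ : J} {L N X : Submodule J A} (h : GF τ L N) (g : Γ)
    (hL : ∀ m ∈ N, m ∈ L ↔ g • m ∈ X) : GF τ X (X ⊔ tr g N) := by
  classical
  obtain ⟨B, hB, h1, h2⟩ := h
  have hinj : ∀ g : Γ, Function.Injective (fun a : A => g • a) := fun g => MulAction.injective g
  have hs1 : ∀ (g : Γ) (l : A →₀ J) (B : Set A), (l.support : Set A) ⊆ B →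
      ∀ a ∈ (Finsupp.mapDomain (fun a => g • a) l).support, g⁻¹ • a ∈ B := by
    intro g l B hl a ha
    have := Finsupp.mapDomain_support ha
    rw [Finset.mem_image] at this
    obtain ⟨b, hb, rfl⟩ := this
    rw [inv_smul_smul]
    exact hl hb
  have hLX : ∀ m ∈ L ⊓ N, g • m ∈ X := fun m hm => (hL m hm.2).1 hm.1
  refine ⟨{x | g⁻¹ • x ∈ B}, ?_, ?_, ?_⟩
  · intro x hx
    exact Submodule.mem_sup_right (hB hx)
  · intro l hl hlX
    have e1 : Finsupp.mapDomain (fun a => g⁻¹ • a) l = 0 := by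
      have hs : ((Finsupp.mapDomain (fun a => g⁻¹ • a) l).support : Set A) ⊆ B := by
        intro a ha
        have := hs1 g⁻¹ l {x | g⁻¹ • x ∈ B} hl a ha
        rw [inv_inv] at this
        have h3 : g⁻¹ • g • a ∈ B := this
        rwa [inv_smul_smul] at h3
      apply h1 _ hs
      rw [hL _ (lc_mem hB hs), lc_smul, smul_inv_smul]
      exact hlX
    have e2 : Function.Injective (Finsupp.mapDomain (fun a : A => g⁻¹ • a) :
        (A →₀ J) → (A →₀ J)) := Finsupp.mapDomain_injective (hinj g⁻¹)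
    apply e2
    rw [e1, Finsupp.mapDomain_zero]
  · intro y hy
    rw [Submodule.mem_sup] at hy
    obtain ⟨x, hx, m, hm, rfl⟩ := hy
    obtain ⟨k, l, hl, hk⟩ := h2 _ hm
    refine ⟨k, Finsupp.mapDomain (fun a => g • a) l, ?_, ?_⟩
    · exact hs1 g l B hl
    · have hN : τ ^ k • g⁻¹ • m - lc l ∈ N := N.sub_mem (N.smul_mem _ hm) (lc_mem hB hl)
      have h3 := (hL _ hN).1 hk
      rw [smul_sub, smul_comm g (τ ^ k), smul_inv_smul] at h3
      rw [lc_smul, smul_add, add_sub_assoc]
      exact X.add_mem (X.smul_mem _ hx) h3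

theorem GF.cyc [IsDomain J] (Z : Submodule J A) (a : A) :
    ∃ τ : J, τ ≠ 0 ∧ GF τ Z (Z ⊔ Submodule.span J {a}) := by
  classical
  by_cases h : ∃ c : J, c ≠ 0 ∧ c • a ∈ Z
  · obtain ⟨c, hc, hca⟩ := h
    refine ⟨c, hc, ∅, by simp, fun l hl _ => by
      rw [← Finsupp.support_eq_empty, ← Finset.coe_eq_empty]
      exact Set.subset_empty_iff.1 hl, fun y hy => ⟨1, 0, by simp, ?_⟩⟩
    rw [Submodule.mem_sup] at hy
    obtain ⟨z, hz, w, hw, rfl⟩ := hy
    obtain ⟨d, rfl⟩ := Submodule.mem_span_singleton.1 hw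
    rw [lc, map_zero, sub_zero, pow_one, smul_add, smul_comm c d]
    exact Z.add_mem (Z.smul_mem _ hz) (Z.smul_mem _ hca)
  · push Not at h
    refine ⟨1, one_ne_zero, {a}, ?_, ?_, ?_⟩
    · rintro x rfl
      exact Submodule.mem_sup_right (Submodule.mem_span_singleton_self _)
    · intro l hl hlX
      have e1 : l = Finsupp.single a (l a) := by
        ext b
        rw [Finsupp.single_apply]
        split_ifs with hb
        · rw [hb]
        · by_contra hc
          exact hb (hl (Finsupp.mem_support_iff.2 hc)).symm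
      rw [e1, lc, Finsupp.linearCombination_single] at hlX
      by_contra hne
      have : l a ≠ 0 := by
        intro h0
        rw [e1, h0, Finsupp.single_zero] at hne
        exact hne rfl
      exact h _ this hlX
    · intro y hy
      rw [Submodule.mem_sup] at hy
      obtain ⟨z, hz, w, hw, rfl⟩ := hy
      obtain ⟨d, rfl⟩ := Submodule.mem_span_singleton.1 hw
      refine ⟨0, Finsupp.single a d, ?_, ?_⟩
      · intro b hb
        have := Finsupp.support_single_subset hb
        exact Finset.mem_singleton.1 this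
      · rw [lc, Finsupp.linearCombination_single, pow_zero, one_smul]
        show z + d • a - d • a ∈ Z
        rwa [add_sub_cancel_right]

theorem GF.fin [IsDomain J] (X : Submodule J A) (F : Finset A) :
    ∃ τ : J, τ ≠ 0 ∧ GF τ X (X ⊔ Submodule.span J (F : Set A)) := by
  classical
  induction F using Finset.induction_on with
  | empty =>
    refine ⟨1, one_ne_zero, ∅, by simp, fun l hl _ => by
      rw [← Finsupp.support_eq_empty, ← Finset.coe_eq_empty]
      exact Set.subset_empty_iff.1 hl, fun y hy => ⟨0, 0, by simp, by simpa using hy⟩⟩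
  | insert a F _ ih =>
    obtain ⟨τ, hτ, h⟩ := ih
    obtain ⟨σ, hσ, h'⟩ := GF.cyc (X ⊔ Submodule.span J (F : Set A)) a
    refine ⟨τ * σ, mul_ne_zero hτ hσ, ?_⟩
    have e : X ⊔ Submodule.span J ((insert a F : Finset A) : Set A)
        = (X ⊔ Submodule.span J (F : Set A)) ⊔ Submodule.span J {a} := by
      rw [Finset.coe_insert, Submodule.span_insert, sup_comm (Submodule.span J {a}), sup_assoc]
    rw [e]
    exact GF.trans le_sup_left le_sup_left (h.dvd (dvd_mul_right _ _)) (h'.dvd (dvd_mul_left _ _))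

end Sub

end Pool.Agent.H892.VS.HM
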