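import Mathlib
import Pool.Agent.H892.VS.Stm

set_option autoImplicit false

open MvPolynomial

namespace Pool.Agent.H862.VS_HC

open Pool.Agent.H892.VS

variable {n s : ℕ} (T : Cox n s)

theorem wt_add (a b : Mon n) : T.wt (a + b) = T.wt a + T.wt b := by
  unfold Cox.wt
  rw [← Finset.sum_add_distrib]
  refine Finset.sum_congr rfl fun j _ => ?_
  rw [Finsupp.add_apply, Nat.cast_add, add_smul]

open Classical in
theorem coeff_cmp (u : Fin s → ℤ) (g : MvPolynomial (Fin n) ℂ) (m : Mon n) :
    (T.cmp u g).coeff m = if T.wt m = u then g.coeff m else 0 := by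
  unfold Cox.cmp
  rw [MvPolynomial.coeff_sum]
  simp only [coeff_monomial]
  rw [Finset.sum_ite_eq']
  by_cases h : T.wt m = u
  · rw [if_pos h]
    by_cases h2 : m ∈ g.support
    · rw [if_pos (Finset.mem_filter.2 ⟨h2, h⟩)]
    · rw [if_neg (fun h3 => h2 (Finset.mem_filter.1 h3).1)]
      exact (MvPolynomial.notMem_support_iff.1 h2).symm
  · have h3 : m ∉ g.support.filter (fun m => T.wt m = u) := fun h3 => h (Finset.mem_filter.1 h3).2
    rw [if_neg h, if_neg h3]

theorem cmp_zero (u : Fin s → ℤ) : T.cmp u 0 = 0 := by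
  ext m
  rw [coeff_cmp, coeff_zero, ite_self]

theorem cmp_add (u : Fin s → ℤ) (g g' : MvPolynomial (Fin n) ℂ) :
    T.cmp u (g + g') = T.cmp u g + T.cmp u g' := by
  ext m
  rw [coeff_add, coeff_cmp, coeff_cmp, coeff_cmp, coeff_add]
  split_ifs
  · rfl
  · rw [add_zero]

theorem cmp_part {u w : Fin s → ℤ} {g : MvPolynomial (Fin n) ℂ} (h : g ∈ T.part w) :
    T.cmp u g = g ∨ T.cmp u g = 0 := by
  by_cases huw : w = u
  · left
    ext m
    rw [coeff_cmp]
    split_ifs with h1
    · rfl
    · by_contra h2
      exact h1 ((h m (Ne.symm h2)).trans huw)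
  · right
    ext m
    rw [coeff_cmp, coeff_zero]
    split_ifs with h1
    · by_contra h2
      exact huw ((h m h2).symm.trans h1)
    · rfl

theorem cmp_monomial_mul (u : Fin s → ℤ) (a : Mon n) (c : ℂ) (g : MvPolynomial (Fin n) ℂ) :
    T.cmp u (monomial a c * g) = monomial a c * T.cmp (u - T.wt a) g := by
  ext m
  rw [coeff_cmp, coeff_monomial_mul', coeff_monomial_mul']
  by_cases ham : a ≤ m
  · rw [if_pos ham, if_pos ham, coeff_cmp]
    have h1 : T.wt m = T.wt (m - a) + T.wt a := by
      rw [← wt_add, tsub_add_cancel_of_le ham]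
    by_cases h2 : T.wt m = u
    · rw [if_pos h2, if_pos (by rw [← h2, h1, add_sub_cancel_right])]
    · rw [if_neg h2, if_neg (fun h3 => h2 (by rw [h1, h3, sub_add_cancel])), mul_zero]
  · rw [if_neg ham, if_neg ham, ite_self]

/-- Homogeneous ideals contain the homogeneous components of their elements. -/
theorem t_HC : S_HC := by
  intro n s T J hJ g hg
  have hg' : g ∈ Ideal.span {g | g ∈ J ∧ ∃ u, g ∈ T.part u} := by
    rw [← hJ]
    exact hg
  clear hg
  induction hg' using Submodule.span_induction with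
  | mem g hg =>
    obtain ⟨hgJ, w, hw⟩ := hg
    intro u
    rcases cmp_part T (u := u) hw with h | h
    · rw [h]
      exact hgJ
    · rw [h]
      exact J.zero_mem
  | zero =>
    intro u
    rw [cmp_zero]
    exact J.zero_mem
  | add g g' _ _ h h' =>
    intro u
    rw [cmp_add]
    exact J.add_mem (h u) (h' u)
  | smul f g _ h =>
    rw [smul_eq_mul]
    induction f using MvPolynomial.induction_on' with
    | monomial a c =>
      intro u
      rw [cmp_monomial_mul]
      exact J.mul_mem_left _ (h _)
    | add p q hp hq =>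
      intro u
      rw [add_mul, cmp_add]
      exact J.add_mem (hp u) (hq u)

end Pool.Agent.H862.VS_HC
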