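import Mathlib
import Pool.Agent.H892.VS.Stm

/-! Irreducibility of the secant variety (MP_02af42_ag). -/

set_option autoImplicit false

open MvPolynomial

namespace Pool.Agent.H947.VS_IRR

open Pool.Agent.H892.VS

namespace IRR

variable {n s : ℕ} (T : Cox n s) (v : Fin s → ℤ) (r : ℕ)

/-- the generic coordinates of a sum of `r` multiples of points -/
noncomputable def gen (m : Mon n) : MvPolynomial ((Fin r × Fin n) ⊕ Fin r) ℂ :=
  if m ∈ T.mon v then ∑ i : Fin r, X (Sum.inr i) * ∏ j : Fin n, X (Sum.inl (i, j)) ^ m j else 0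

/-- pull back of the polynomials -/
noncomputable def phi : MvPolynomial (Mon n) ℂ →ₐ[ℂ] MvPolynomial ((Fin r × Fin n) ⊕ Fin r) ℂ :=
  aeval (gen T v r)

/-- the point with the parameters `z` -/
noncomputable def point (z : (Fin r × Fin n) ⊕ Fin r → ℂ) : Mon n → ℂ :=
  ∑ i : Fin r, z (Sum.inr i) • T.ev v (fun j => z (Sum.inl (i, j)))

lemma eval_gen (z : (Fin r × Fin n) ⊕ Fin r → ℂ) (m : Mon n) :
    eval z (gen T v r m) = point T v r z m := by
  unfold gen point Cox.ev
  rw [Finset.sum_apply]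
  by_cases h : m ∈ T.mon v
  · simp only [h, if_true, map_sum, map_mul, map_prod, map_pow, eval_X, Pi.smul_apply, smul_eq_mul]
  · simp only [h, if_false, map_zero, Pi.smul_apply, smul_zero, Finset.sum_const_zero]

lemma eval_phi (z : (Fin r × Fin n) ⊕ Fin r → ℂ) (P : MvPolynomial (Mon n) ℂ) :
    eval z (phi T v r P) = eval (point T v r z) P := by
  unfold phi
  induction P using MvPolynomial.induction_on with
  | C a => simp
  | add p q hp hq => rw [map_add, map_add, map_add, hp, hq]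
  | mul_X p m hp => rw [map_mul, map_mul, map_mul, hp, aeval_X, eval_X, eval_gen]

variable {T v r}

lemma phi_ne_zero {P : MvPolynomial (Mon n) ℂ} (h : ∃ F ∈ T.sig v r, eval F P ≠ 0) :
    phi T v r P ≠ 0 := by
  obtain ⟨F, hF, hP⟩ := h
  intro h0
  apply hP
  apply hF
  rintro G ⟨x, c, _, rfl⟩
  have h1 := eval_phi T v r (Sum.elim (fun p => x p.1 p.2) c) P
  rw [h0, map_zero] at h1
  exact h1.symm

lemma point_mem {z : (Fin r × Fin n) ⊕ Fin r → ℂ} (h : ∀ p, z (Sum.inl p) ≠ 0) :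
    point T v r z ∈ T.sig v r := by
  intro P hP
  apply hP
  refine ⟨fun i j => z (Sum.inl (i, j)), fun i => z (Sum.inr i), ?_, rfl⟩
  intro i
  obtain ⟨E, hE⟩ := T.irr_ne
  exact ⟨E, hE, fun j _ => h (i, j)⟩

end IRR

theorem t_IRR : S_IRR := by
  intro n s r T v P Q hP hQ
  have h1 := IRR.phi_ne_zero hP
  have h2 := IRR.phi_ne_zero hQ
  have h3 : (∏ p : Fin r × Fin n, X (Sum.inl p) :
      MvPolynomial ((Fin r × Fin n) ⊕ Fin r) ℂ) ≠ 0 :=
    Finset.prod_ne_zero_iff.2 fun p _ => X_ne_zero _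
  have h4 := mul_ne_zero (mul_ne_zero h1 h2) h3
  have h5 : ∃ z, eval z (IRR.phi T v r P * IRR.phi T v r Q *
      ∏ p : Fin r × Fin n, X (Sum.inl p)) ≠ 0 := by
    by_contra h6
    push Not at h6
    apply h4
    apply MvPolynomial.funext
    intro z
    rw [h6 z, map_zero]
  obtain ⟨z, hz⟩ := h5
  rw [map_mul, map_mul, IRR.eval_phi, IRR.eval_phi, map_prod] at hz
  have h7 : ∀ p : Fin r × Fin n, z (Sum.inl p) ≠ 0 := by
    intro p
    have h8 := Finset.prod_ne_zero_iff.1 (right_ne_zero_of_mul hz) p (Finset.mem_univ p)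
    rwa [eval_X] at h8
  refine ⟨IRR.point T v r z, IRR.point_mem h7, ?_⟩
  rw [map_mul]
  exact left_ne_zero_of_mul hz

end Pool.Agent.H947.VS_IRR
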