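import Mathlib
import Pool.Agent.H892.VS.Stm

/-!
# Border varieties of sums of powers: ideals of points (task PTI, helper682)
-/

set_option autoImplicit false

open MvPolynomial

namespace Pool.Agent.H682.VS_PTI

open Pool.Agent.H892.VS

theorem cmp_mem {n s : ℕ} (T : Cox n s) (u : Fin s → ℤ) (g : MvPolynomial (Fin n) ℂ) :
    T.cmp u g ∈ T.part u := by
  classical
  unfold Cox.cmp
  refine Submodule.sum_mem _ fun m hm => ?_
  have hw : T.wt m = u := (Finset.mem_filter.1 hm).2
  intro m' hm'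
  rw [coeff_monomial] at hm'
  by_cases h : m = m'
  · rw [← h]
    exact hw
  · rw [if_neg h] at hm'
    exact absurd rfl hm'

theorem sum_cmp {n s : ℕ} (T : Cox n s) (g : MvPolynomial (Fin n) ℂ) :
    ∃ U : Finset (Fin s → ℤ), g = ∑ u ∈ U, T.cmp u g := by
  classical
  refine ⟨g.support.image T.wt, ?_⟩
  have h1 : ∀ u, T.cmp u g =
      ∑ m ∈ g.support, if T.wt m = u then monomial m (g.coeff m) else 0 := by
    intro u
    unfold Cox.cmp
    rw [Finset.sum_filter]
  have h2 : ∑ u ∈ g.support.image T.wt, T.cmp u g = ∑ m ∈ g.support, monomial m (g.coeff m) := by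
    simp_rw [h1]
    rw [Finset.sum_comm]
    refine Finset.sum_congr rfl fun m hm => ?_
    rw [Finset.sum_eq_single (T.wt m)]
    · rw [if_pos rfl]
    · intro u _ hu
      rw [if_neg fun h => hu h.symm]
    · intro h
      exact absurd (Finset.mem_image_of_mem _ hm) h
  rw [h2]
  exact (support_sum_monomial_coeff g).symm

theorem t_PTI (h1 : S_HC) : S_PTI := by
  intro n s r T x
  have hker : ∀ g ∈ T.ptIdeal x, ∀ i, eval (x i) g = 0 := by
    intro g hg i
    have h2 : T.ptIdeal x ≤ RingHom.ker (eval (x i)) := by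
      unfold Cox.ptIdeal
      rw [Ideal.span_le]
      rintro f ⟨-, h⟩
      exact h i
    exact h2 hg
  have hgen : ∀ u, ∀ g ∈ T.part u, (∀ i, eval (x i) g = 0) → g ∈ T.ptIdeal x :=
    fun u g hg h => Ideal.subset_span ⟨⟨u, hg⟩, h⟩
  have hhom : T.Homog (T.ptIdeal x) := by
    unfold Cox.Homog
    refine le_antisymm ?_ ?_
    · refine Ideal.span_mono ?_
      rintro g ⟨⟨u, hu⟩, h⟩
      exact ⟨hgen u g hu h, u, hu⟩
    · rw [Ideal.span_le]
      rintro g ⟨h, -⟩
      exact h
  refine ⟨hhom, fun g => ⟨fun hg u i => ?_, fun hg => ?_⟩, fun u g hg => ⟨hker g, hgen u g hg⟩⟩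
  · exact hker _ (h1 n s T _ hhom g hg u) i
  · obtain ⟨U, hU⟩ := sum_cmp T g
    rw [hU]
    exact Ideal.sum_mem _ fun u _ => hgen u _ (cmp_mem T u g) (hg u)

end Pool.Agent.H682.VS_PTI
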