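import Mathlib
import Pool.Agent.H892.VS.Stm

/-!
# Project VS: the border rank of a general point
-/

set_option autoImplicit false

open MvPolynomial

namespace Pool.Agent.H729.VS_RK

open Pool.Agent.H892.VS

variable {n s : ℕ} (T : Cox n s) (v : Fin s → ℤ)

theorem sec_succ (k : ℕ) : T.sec v k ⊆ T.sec v (k + 1) := by
  rintro F ⟨x, c, hx, hF⟩
  refine ⟨Fin.snoc x (fun _ => 1), Fin.snoc c 0, ?_, ?_⟩
  · intro i
    refine Fin.lastCases ?_ (fun j => ?_) i
    · rw [Fin.snoc_last]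
      obtain ⟨E, hE⟩ := T.irr_ne
      exact ⟨E, hE, fun j _ => one_ne_zero⟩
    · rw [Fin.snoc_castSucc]
      exact hx j
  · rw [Fin.sum_univ_castSucc, Fin.snoc_last, Fin.snoc_last, zero_smul, add_zero, hF]
    refine Finset.sum_congr rfl fun i _ => ?_
    rw [Fin.snoc_castSucc, Fin.snoc_castSucc]

theorem sig_succ (k : ℕ) : T.sig v k ⊆ T.sig v (k + 1) :=
  fun _ hF P hP => hF P fun G hG => hP G (sec_succ T v k hG)

theorem sig_mono {k m : ℕ} (h : k ≤ m) : T.sig v k ⊆ T.sig v m := by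
  induction m, h using Nat.le_induction with
  | base => exact subset_rfl
  | succ m _ ih => exact ih.trans (sig_succ T v m)

theorem zero_mem : (0 : Mon n → ℂ) ∈ T.sig v 0 := by
  intro P hP
  refine hP 0 ⟨Fin.elim0, Fin.elim0, fun i => i.elim0, ?_⟩
  rw [Finset.univ_eq_empty, Finset.sum_empty]

theorem t_RK : S_RK := by
  classical
  intro n s r T v
  have hex : ∃ k, T.sig v k = T.sig v r := ⟨r, rfl⟩
  have hspec := Nat.find_spec hex
  have hmin : ∀ m, m < Nat.find hex → T.sig v m ≠ T.sig v r := fun m hm => Nat.find_min hex hm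
  generalize Nat.find hex = r₀ at hspec hmin
  cases r₀ with
  | zero =>
    refine ⟨0, 1, hspec, ⟨0, ?_, ?_⟩, ?_⟩
    · rw [← hspec]
      exact zero_mem T v
    · rw [map_one]
      exact one_ne_zero
    · intro F hF _
      rw [← hspec] at hF
      exact Nat.sInf_eq_zero.2 (Or.inl hF)
  | succ k =>
    have hne : ¬ T.sig v (k + 1) ⊆ T.sig v k := by
      intro hsub
      exact hmin k (Nat.lt_succ_self k) ((Set.Subset.antisymm (sig_succ T v k) hsub).trans hspec)
    obtain ⟨F0, hF0, hF0'⟩ := Set.not_subset.1 hne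
    have hF1 : ¬ ∀ P : MvPolynomial (Mon n) ℂ, (∀ G ∈ T.sec v k, eval G P = 0) →
        eval F0 P = 0 := hF0'
    push Not at hF1
    obtain ⟨P, hP, hP0⟩ := hF1
    refine ⟨k + 1, P, hspec, ⟨F0, ?_, hP0⟩, ?_⟩
    · rw [← hspec]
      exact hF0
    · intro F hF hFP
      rw [← hspec] at hF
      have hle : T.brk v F ≤ k + 1 := Nat.sInf_le hF
      refine le_antisymm hle ?_
      by_contra hlt
      rw [not_le] at hlt
      have hmem : F ∈ T.sig v (T.brk v F) := Nat.sInf_mem (s := {r | F ∈ T.sig v r}) ⟨k + 1, hF⟩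
      exact hFP (sig_mono T v (Nat.lt_succ_iff.1 hlt) hmem P hP)

end Pool.Agent.H729.VS_RK
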