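import Mathlib
import Pool.Agent.H892.VS.Stm

set_option autoImplicit false

/-! Ideals of points are saturated (project VS of helper892). -/

open MvPolynomial

namespace Pool.Agent.H644.VS_SATPT

open Pool.Agent.H892.VS

variable {n s : ℕ}

theorem coeff_cmp (T : Cox n s) (u : Fin s → ℤ) (g : MvPolynomial (Fin n) ℂ) (m : Mon n) :
    (T.cmp u g).coeff m = if T.wt m = u then g.coeff m else 0 := by
  classical
  unfold Cox.cmp
  rw [coeff_sum]
  simp only [coeff_monomial]
  rw [Finset.sum_ite_eq']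
  by_cases h1 : T.wt m = u
  · rw [if_pos h1]
    by_cases h2 : g.coeff m = 0
    · rw [h2, ite_self]
    · rw [if_pos]
      rw [Finset.mem_filter]
      exact ⟨mem_support_iff.2 h2, h1⟩
  · rw [if_neg h1, if_neg]
    rw [Finset.mem_filter]
    exact fun h => h1 h.2

theorem wt_add (T : Cox n s) (m m' : Mon n) : T.wt (m + m') = T.wt m + T.wt m' := by
  unfold Cox.wt
  rw [← Finset.sum_add_distrib]
  refine Finset.sum_congr rfl fun j _ => ?_
  rw [Finsupp.add_apply, Nat.cast_add, add_smul]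

theorem cmp_mul (T : Cox n s) (u : Fin s → ℤ) (m0 : Mon n) (g : MvPolynomial (Fin n) ℂ) :
    T.cmp (T.wt m0 + u) (monomial m0 1 * g) = monomial m0 1 * T.cmp u g := by
  ext m
  rw [coeff_cmp, coeff_monomial_mul', coeff_monomial_mul']
  by_cases h : m0 ≤ m
  · rw [if_pos h, if_pos h, coeff_cmp]
    obtain ⟨m', rfl⟩ := exists_add_of_le h
    rw [add_tsub_cancel_left, wt_add]
    by_cases h1 : T.wt m' = u
    · rw [if_pos h1, if_pos (by rw [h1])]
    · rw [if_neg h1, if_neg (fun h2 => h1 (add_left_cancel h2)), mul_zero]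
  · rw [if_neg h, if_neg h, ite_self]

theorem prod_eq (E : Finset (Fin n)) (k : ℕ) :
    ((∏ j ∈ E, X j) ^ k : MvPolynomial (Fin n) ℂ) =
      monomial (k • ∑ j ∈ E, Finsupp.single j 1) 1 := by
  have h : (∏ j ∈ E, X j : MvPolynomial (Fin n) ℂ) =
      monomial (∑ j ∈ E, Finsupp.single j 1) 1 := by
    rw [monomial_sum_one]
    rfl
  rw [h, monomial_pow, one_pow]

theorem t_SATPT (h1 : S_PTI) : S_SATPT := by
  intro n s r T x hx g hg
  obtain ⟨-, h2, -⟩ := h1 n s r T x
  rw [h2]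
  intro u i
  obtain ⟨E, hE, hEx⟩ := hx i
  obtain ⟨k, hk⟩ := hg E hE
  rw [h2] at hk
  rw [prod_eq] at hk
  have h3 := hk (T.wt (k • ∑ j ∈ E, Finsupp.single j 1) + u) i
  rw [cmp_mul, map_mul, ← prod_eq] at h3
  refine (mul_eq_zero.1 h3).resolve_left ?_
  rw [map_pow, map_prod]
  refine pow_ne_zero _ (Finset.prod_ne_zero_iff.2 fun j hj => ?_)
  rw [eval_X]
  exact hEx j hj

end Pool.Agent.H644.VS_SATPT
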