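import Mathlib
import Pool.Agent.H892.VS.Stm

/-!
# Components of noetherian spaces and dense subsets (task COMP of project VS of helper892)
-/

set_option autoImplicit false

namespace Pool.Agent.H932.VS_COMP

open Pool.Agent.H892.VS

theorem t_COMP : S_COMP := by
  intro Y τ hN V E hEV hVE C hC O hO hOC
  let _ := τ
  have : TopologicalSpace.NoetherianSpace Y := hN
  obtain ⟨⟨hCV, hCirr⟩, hmax⟩ := hC
  have hC' : IsIrreducible ((fun v : V => (v : Y)) ⁻¹' C) := by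
    refine ⟨?_, ?_⟩
    · obtain ⟨x, hx⟩ := hCirr.nonempty
      exact ⟨⟨x, hCV hx⟩, hx⟩
    · rintro u v hu hv ⟨x, hx, hxu⟩ ⟨y, hy, hyv⟩
      obtain ⟨u', hu', rfl⟩ := isOpen_induced_iff.1 hu
      obtain ⟨v', hv', rfl⟩ := isOpen_induced_iff.1 hv
      obtain ⟨z, hz, hzu, hzv⟩ := hCirr.2 u' v' hu' hv' ⟨x, hx, hxu⟩ ⟨y, hy, hyv⟩
      exact ⟨⟨z, hCV hz⟩, hz, hzu, hzv⟩
  obtain ⟨c, hc, hCc⟩ := exists_mem_irreducibleComponents_subset_of_isIrreducible _ hC'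
  have himg : IsIrreducible ((fun v : V => (v : Y)) '' c) :=
    hc.1.image _ continuous_subtype_val.continuousOn
  have hcC : ((fun v : V => (v : Y)) '' c) ⊆ C := by
    refine hmax ⟨?_, himg⟩ ?_
    · rintro _ ⟨x, -, rfl⟩
      exact x.2
    · intro x hx
      exact ⟨⟨x, hCV hx⟩, hCc hx, rfl⟩
  obtain ⟨o, ho, hone, hoc⟩ :=
    TopologicalSpace.NoetherianSpace.exists_isOpen_nonempty_subset_irreducibleComponent c hc
  obtain ⟨x, hxO, hxC⟩ := hOC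
  obtain ⟨y, hyo⟩ := hone
  have hO' : IsOpen ((fun v : V => (v : Y)) ⁻¹' O) := hO.preimage continuous_subtype_val
  obtain ⟨z, hzc, hzO, hzo⟩ := hc.1.2 _ _ hO' ho ⟨⟨x, hCV hxC⟩, hCc hxC, hxO⟩ ⟨y, hoc hyo, hyo⟩
  obtain ⟨w, hw, hwe⟩ := isOpen_induced_iff.1 (hO'.inter ho)
  have hzw : (z : Y) ∈ w := by
    have h1 : z ∈ (fun v : V => (v : Y)) ⁻¹' w := by
      have h2 : z ∈ (fun v : V => (v : Y)) ⁻¹' O ∩ o := ⟨hzO, hzo⟩
      rw [← hwe] at h2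
      exact h2
    exact h1
  obtain ⟨e, hew, heE⟩ := mem_closure_iff.1 (hVE z.2) w hw hzw
  have he : (⟨e, hEV heE⟩ : V) ∈ (fun v : V => (v : Y)) ⁻¹' O ∩ o := by
    have h2 : (⟨e, hEV heE⟩ : V) ∈ (fun v : V => (v : Y)) ⁻¹' w := hew
    rw [← hwe]
    exact h2
  exact ⟨e, ⟨he.1, hcC ⟨_, hoc he.2, rfl⟩⟩, heE⟩

end Pool.Agent.H932.VS_COMP
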